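import Pool.Agent.Lib.TG_h77.H1
import Pool.Agent.Lib.TG1.TL

/-!
# TANK G, row H1 of C42: local degrees of `K / k(x, t)` at all points

The charts are `X = x + ∑ a_i t_i` for a finite set of `a`.
-/

set_option autoImplicit false

namespace Pool.Agent.TG77

open Module
open Pool.Agent.TG Pool.Agent.TG.Cnt
open Pool.Agent.LU2 (locV le_locV locV_mem locV_inv locV_mono)
open Pool.Agent.TGh33 (Wr DB jm)
open Pool.Agent.TG1 (Dat Adm kq dg crd tr tl ffi_x ffi_t kq_fin kq_sep algInd_crd kq_tl kq_tr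
  dg_tr Wr_tr)
open Pool.Agent.TG91 (Nc Reached)

universe u

section Scale

variable {k F : Type u} [Field k] [Field F] [Algebra k F]

/-- The local ring does not change when the model is multiplied by an element. -/
theorem RV_of_smul {v : ValuationSubring F} (hv : Ov k v) {P P' : Submodule k F}
    (hP : IsModel P) {u : F} (hu : u ≠ 0) (h : ∀ g, g ∈ P' ↔ u * g ∈ P) : RV v P = RV v P' := by
  obtain ⟨f, hf⟩ := exists_isMin hv hP
  have hf' : IsMin v P' (f / u) := ⟨(h _).2 (by rw [mul_div_cancel₀ _ hu]; exact hf.mem),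
    div_ne_zero hf.ne hu, fun g hg => by
      have h1 := hf.div _ ((h g).1 hg)
      have h2 : g / (f / u) = u * g / f := by
        have := hf.ne
        field_simp
      rw [h2]
      exact h1⟩
  have hf0 := hf.ne
  rw [RV_eq hf, RV_eq hf']
  congr 1
  unfold ch
  congr 1
  ext a
  constructor
  · rintro ⟨g, hg, rfl⟩
    refine ⟨g / u, (h _).2 (by rwa [mul_div_cancel₀ _ hu]), ?_⟩
    dsimp only
    field_simp
  · rintro ⟨g, hg, rfl⟩
    refine ⟨u * g, (h g).1 hg, ?_⟩
    dsimp only
    field_simp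

theorem LDeg.mono' {M : Type u} [Field M] [Algebra F M] {v₀ : ValuationSubring F}
    {R : Subalgebra k F} {d e : ℕ} (h : LDeg M v₀ R d) (hde : d ≤ e) : LDeg M v₀ R e := by
  intro N _ _ _ _ _ _ j W hW
  exact (h N j W hW).trans hde

end Scale

section All

variable {k K : Type u} [Field k] [Field K] [Algebra k K] {n : ℕ}
  {D : Fin (n + 1) → Derivation k K K} {z : Fin (n + 1) → K} {A : Subalgebra k K}

/-- `h1` for a subfield equal to `k(t / x)`. -/
theorem h1F {p : ℕ} [hp : Fact p.Prime] [CharP k p] [IsAlgClosed k] (dat : Dat D z A)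
    {S' : Submodule k K} (hSA : ∀ a ∈ S', a ∈ A) {x w : K} {t : Fin (n + 1) → K} (hx : x ∈ A)
    (hWx : Wr D (Fin.cons x t) ≠ 0) (ht : ∀ j, t j ∈ S') (hw : w ∈ S')
    (hWw : Wr D (Fin.cons w t) ≠ 0) (hcw : Nc D A S' w t)
    (hcx : ∀ V : ValuationSubring K, Ov k V → (∀ j, ¬ IsMin V S' (t j)) →
      V.valuation x = 1 ∧ V.valuation (Wr D (Fin.cons x t)) = 1)
    {F : IntermediateField k K} (hF : F = kq k x t) (y : Fin (n + 1) → F)
    (hy : ∀ i, (y i : K) = t i / x) {v₀ : ValuationSubring F} (hv : ZDim k v₀)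
    (hv1 : ∀ i, v₀.valuation (y i) < 1) :
    LDeg K v₀ (RV v₀ (Pm k y)) (max 1 (dg k x t - dg k w t)) := by
  subst hF
  have h2 : y = qy k x t := funext fun i => Subtype.ext (hy i)
  subst h2
  exact h1 dat hSA hx hWx ht hw hWw hcw hcx v₀ hv hv1

/-- Local degrees at a reached point. -/
theorem h1_reached {p : ℕ} [hp : Fact p.Prime] [CharP k p] [IsAlgClosed k] (dat : Dat D z A)
    {S : Submodule k K} (hSA : ∀ a ∈ S, a ∈ A) {x : K} {t : Fin (n + 1) → K}
    (hX : Adm D S x t) {s : ℕ} {η : Fin (n + 1) → k} (hr : Reached D A S s x t η) {C : ℕ}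
    (hC : ∀ S' ≤ S, finrank k S ≤ finrank k S' + s → ∀ w, Adm D S' w (tr x t η) →
      Pool.Agent.TG1.Bpf S' w (tr x t η) → (dg k x t : ℤ) - dg k w (tr x t η) ≤ C)
    {F : IntermediateField k K} (hF : F = kq k x t) (y : Fin (n + 1) → F)
    (hy : ∀ i, (y i : K) = t i / x) {v₀ : ValuationSubring F} (hv : ZDim k v₀)
    (hη : ∀ i, v₀.valuation (y i - algebraMap k F (η i)) < 1) :
    LDeg K v₀ (RV v₀ (Pm k y)) (max 1 C) := by
  obtain ⟨S', hS', hcod, w, hadm, hbpf, hnc, hx⟩ := hr
  have hx0 := ffi_x hX.ne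
  have h1 := h1F dat (S' := S') (fun a ha => hSA a (hS' ha)) (hSA _ hX.x_mem)
    (t := tr x t η) (by rw [Wr_tr]; exact hX.ne) hadm.t_mem hadm.x_mem hadm.ne hnc hx
    (F := F) (by rw [kq_tr]; exact hF) (fun i => y i - algebraMap k F (η i)) (fun i => by
      change (y i : K) - algebraMap k K (η i) = (t i - η i • x) / x
      rw [hy, sub_div, Algebra.smul_def, mul_div_assoc, div_self hx0, mul_one]) hv hη
  rw [Pm_sub, dg_tr] at h1
  refine LDeg.mono' h1 (max_le_max le_rfl ?_)
  have h2 := hC S' hS' hcod w hadm hbpf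
  omega

/-- **H1 at all points.** -/
theorem h1_all {p : ℕ} [hp : Fact p.Prime] [CharP k p] [IsAlgClosed k] (dat : Dat D z A)
    {S : Submodule k K} (hSA : ∀ a ∈ S, a ∈ A) {x : K} {t : Fin (n + 1) → K}
    (hX : Adm D S x t) {s C : ℕ} (𝒜 : Finset (Fin (n + 1) → k))
    (hspan : Submodule.span k ((fun a => (Fin.cons 1 a : Fin (n + 2) → k)) ''
      (𝒜 : Set (Fin (n + 1) → k))) = ⊤)
    (hr : ∀ a ∈ 𝒜, Adm D S (tl x t a) t ∧ ∀ η, Reached D A S s (tl x t a) t η ∧
      ∀ S' ≤ S, finrank k S ≤ finrank k S' + s → ∀ w, Adm D S' w (tr (tl x t a) t η) →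
        Pool.Agent.TG1.Bpf S' w (tr (tl x t a) t η) →
        (dg k (tl x t a) t : ℤ) - dg k w (tr (tl x t a) t η) ≤ C)
    {F : IntermediateField k K} (hF : F = kq k x t) (y : Fin (n + 1) → F)
    (hy : ∀ i, (y i : K) = t i / x) (v₀ : ValuationSubring F) (hv : ZDim k v₀) :
    LDeg K v₀ (RV v₀ (Pm k y)) (max 1 C) := by
  classical
  have hx0 := ffi_x hX.ne
  let u : (Fin (n + 1) → k) → F := fun a => 1 + ∑ i, a i • y i
  have hu : ∀ a, (u a : K) = tl x t a / x := by
    intro a
    change ((1 + ∑ i, a i • y i : F) : K) = tl x t a / x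
    rw [tl, add_div, div_self hx0, Finset.sum_div]
    push_cast
    congr 1
    refine Finset.sum_congr rfl fun i _ => ?_
    rw [hy, Algebra.smul_def, Algebra.smul_def, mul_div_assoc]
  -- the linear map
  let φ : (Fin (n + 2) → k) →ₗ[k] F :=
    { toFun := fun c => c 0 • (1 : F) + ∑ i : Fin (n + 1), c i.succ • y i
      map_add' := fun c d => by
        simp only [Pi.add_apply, add_smul, Finset.sum_add_distrib]
        abel
      map_smul' := fun r c => by
        simp only [Pi.smul_apply, smul_eq_mul, mul_smul, RingHom.id_apply, smul_add,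
          Finset.smul_sum] }
  have hφ : ∀ a, φ (Fin.cons 1 a) = u a := by
    intro a
    change (Fin.cons 1 a : Fin (n + 2) → k) 0 • (1 : F) +
      ∑ i : Fin (n + 1), (Fin.cons 1 a : Fin (n + 2) → k) i.succ • y i = 1 + ∑ i, a i • y i
    simp
  have hP : Pm k y = Submodule.span k ((𝒜.image u : Finset F) : Set F) := by
    have h1 : Submodule.span k ((𝒜.image u : Finset F) : Set F) =
        (⊤ : Submodule k (Fin (n + 2) → k)).map φ := by
      rw [← hspan, Submodule.map_span, Finset.coe_image, ← Set.image_comp]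
      congr 1
      refine Set.image_congr fun a _ => ?_
      exact (hφ a).symm
    rw [h1]
    apply le_antisymm
    · unfold Pm
      rw [Submodule.span_le]
      rintro _ (rfl | ⟨i, rfl⟩)
      · refine ⟨Pi.single 0 1, trivial, ?_⟩
        change (Pi.single 0 1 : Fin (n + 2) → k) 0 • (1 : F) +
          ∑ i : Fin (n + 1), (Pi.single 0 1 : Fin (n + 2) → k) i.succ • y i = 1
        simp
      · refine ⟨Pi.single i.succ 1, trivial, ?_⟩
        change (Pi.single i.succ 1 : Fin (n + 2) → k) 0 • (1 : F) +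
          ∑ j : Fin (n + 1), (Pi.single i.succ 1 : Fin (n + 2) → k) j.succ • y j = y i
        rw [Pi.single_eq_of_ne (Fin.succ_ne_zero i).symm, zero_smul, zero_add,
          Finset.sum_eq_single i]
        · rw [Pi.single_eq_same, one_smul]
        · intro j _ hj
          rw [Pi.single_eq_of_ne (fun h => hj (Fin.succ_injective _ h)), zero_smul]
        · intro h; exact absurd (Finset.mem_univ _) h
    · rintro _ ⟨c, -, rfl⟩
      change c 0 • (1 : F) + ∑ i : Fin (n + 1), c i.succ • y i ∈ Pm k y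
      exact Submodule.add_mem _ (Submodule.smul_mem _ _ (one_mem_Pm y))
        (Submodule.sum_mem _ fun i _ => Submodule.smul_mem _ _ (mem_Pm y i))
  have hne : ∃ c ∈ 𝒜.image u, c ≠ 0 := by
    by_contra hcon
    push Not at hcon
    have h1 : Pm k y ≤ ⊥ := by
      rw [hP, Submodule.span_le]
      intro c hc
      exact hcon c hc
    exact one_ne_zero ((Submodule.mem_bot k).1 (h1 (one_mem_Pm y)))
  obtain ⟨c, hc, hmin⟩ := exists_isMin_mem hv.ov (𝒜.image u) hne
  obtain ⟨a, ha, rfl⟩ := Finset.mem_image.1 hc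
  rw [← hP] at hmin
  obtain ⟨hXa, hra⟩ := hr a ha
  have hX0 := ffi_x hXa.ne
  have hu0 : u a ≠ 0 := hmin.ne
  -- the residues
  have hyv : ∀ i, y i / u a ∈ v₀ := fun i => hmin.div _ (mem_Pm y i)
  choose η hη using fun i => hv.res _ (hyv i)
  have hmain := h1_reached dat hSA hXa (hra η).1 (hra η).2 (F := F)
    (by rw [kq_tl a hx0 hX0]; exact hF) (fun i => y i / u a) (fun i => by
      change (y i : K) / (u a : K) = t i / tl x t a
      rw [hy, hu, div_div_div_cancel_right₀ hx0]) hv hη
  have hRV : RV v₀ (Pm k y) = RV v₀ (Pm k fun i => y i / u a) := by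
    refine RV_of_smul hv.ov (Pm_model y) hu0 fun g => ?_
    have hle1 : ∀ g ∈ Pm k (fun i => y i / u a), u a * g ∈ Pm k y := by
      intro g hg
      have h1 : Pm k (fun i => y i / u a) ≤ (Pm k y).comap (LinearMap.mulLeft k (u a)) := by
        unfold Pm
        rw [Submodule.span_le]
        rintro _ (rfl | ⟨i, rfl⟩)
        · change u a * 1 ∈ Pm k y
          rw [mul_one]
          exact hmin.mem
        · change u a * (y i / u a) ∈ Pm k y
          rw [mul_div_cancel₀ _ hu0]
          exact mem_Pm y i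
      exact h1 hg
    refine ⟨hle1 g, fun hg => ?_⟩
    -- `1 / u a` is in the second model
    have hinv : (u a)⁻¹ = 1 - ∑ i, a i • (y i / u a) := by
      have h2 : ∑ i, a i • (y i / u a) = (∑ i, a i • y i) / u a := by
        rw [Finset.sum_div]
        refine Finset.sum_congr rfl fun i _ => ?_
        rw [smul_div_assoc]
      have h3 : ∑ i, a i • y i = u a - 1 := by
        change ∑ i, a i • y i = 1 + ∑ i, a i • y i - 1
        ring
      rw [h2, h3, sub_div, div_self hu0, one_div]
      ring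
    have h1 : Pm k y ≤ (Pm k fun i => y i / u a).comap (LinearMap.mulLeft k (u a)⁻¹) := by
      unfold Pm
      rw [Submodule.span_le]
      rintro _ (rfl | ⟨i, rfl⟩)
      · change (u a)⁻¹ * 1 ∈ Pm k fun i => y i / u a
        rw [mul_one, hinv]
        exact Submodule.sub_mem _ (one_mem_Pm _)
          (Submodule.sum_mem _ fun i _ => Submodule.smul_mem _ _
            (mem_Pm (fun i => y i / u a) i))
      · change (u a)⁻¹ * y i ∈ Pm k fun i => y i / u a
        rw [mul_comm, ← div_eq_mul_inv]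
        exact mem_Pm (fun i => y i / u a) i
    have h2 := h1 hg
    change (u a)⁻¹ * (u a * g) ∈ Pm k fun i => y i / u a at h2
    rwa [inv_mul_cancel_left₀ hu0] at h2
  rw [hRV]
  exact hmain

end All

end Pool.Agent.TG77
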