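import Pool.Agent.Lib.TG_h77.Chart

/-!
# TANK G, row ASM-b: local degrees in a tower `F ≤ E ≤ K`
-/

set_option autoImplicit false

namespace Pool.Agent.TG77

open Module
open Pool.Agent.TG Pool.Agent.TG.Cnt
open Pool.Agent.LU2 (locV le_locV locV_mem locV_inv locV_mono)

universe u

section NV

variable {k E N : Type u} [Field k] [Field E] [Field N] [Algebra k E] [Algebra k N] [Algebra E N]
  [IsScalarTower k E N]

/-- `T` base point free in a power of `Q` and `T = u⁻¹ P`: same normalisations in all `N`. -/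
theorem NV_upm_eq {P Q T : Submodule k E} (hP : IsModel P) (hQ : IsModel Q) {e : ℕ}
    (hb : Bpf (Q ^ (e + 1)) T) (hT : IsModel T) {u : E} (hu : u ≠ 0)
    (h : ∀ g, g ∈ T ↔ u * g ∈ P) {W : ValuationSubring N} (hW : Ov k W) :
    NV W (upm N P) = NV W (upm N Q) := by
  have h1 : NV W (upm N Q) = NV W (upm N (Q ^ (e + 1))) := by
    rw [upm_pow]
    exact NV_congr (RV_pow hW hQ.upm e).symm
  rw [h1, NV_eq_of_bpf (Bpf.upm' hb) hT.upm hW]
  refine NV_congr (RV_of_smul hW hP.upm (u := algebraMap E N u) ((map_ne_zero _).2 hu)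
    fun g => ?_)
  constructor
  · rintro ⟨a, ha, rfl⟩
    exact ⟨u * a, (h a).1 ha, map_mul (algebraMap E N) _ _⟩
  · rintro ⟨a, ha, hag⟩
    have hag' : algebraMap E N a = algebraMap E N u * g := hag
    have hu' : algebraMap E N u ≠ 0 := (map_ne_zero _).2 hu
    refine ⟨u⁻¹ * a, (h _).2 (by rwa [mul_inv_cancel_left₀ hu]), ?_⟩
    change algebraMap E N (u⁻¹ * a) = g
    rw [map_mul, hag', map_inv₀, inv_mul_cancel_left₀ hu']

end NV

section Tower

variable {k F E K : Type u} [Field k] [Field F] [Field E] [Field K] [Algebra k F] [Algebra k E]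
  [Algebra k K] [Algebra F E] [Algebra F K] [Algebra E K] [IsScalarTower k F E]
  [IsScalarTower k F K] [IsScalarTower k E K] [IsScalarTower F E K]

omit [Algebra k K] [IsScalarTower k F K] [IsScalarTower k E K] in
/-- **Local degrees in a tower.** -/
theorem ldeg_trans {v₀ : ValuationSubring F} (hv : Ov k v₀) {P : Submodule k F}
    (hP : IsModel P) {Q T : Submodule k E} (hQ : IsModel Q) {e : ℕ}
    (hb : Bpf (Q ^ (e + 1)) T) (hT : IsModel T) {u : E} (hu : u ≠ 0)
    (h : ∀ g, g ∈ T ↔ u * g ∈ upm E P) {d₁ d₂ : ℕ} (h1 : LDeg E v₀ (RV v₀ P) d₁)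
    (h2 : ∀ w : ValuationSubring E, w.comap (algebraMap F E) = v₀ → LDeg K w (RV w Q) d₂) :
    LDeg K v₀ (RV v₀ P) (d₁ * d₂) := by
  intro N _ _ _ _ _ _ j W hW
  let _ : Algebra K N := j.toRingHom.toAlgebra
  have t1 : IsScalarTower F K N := IsScalarTower.of_algebraMap_eq fun x => (j.commutes x).symm
  let _ : Algebra E N := (j.toRingHom.comp (algebraMap E K)).toAlgebra
  have t2 : IsScalarTower E K N := IsScalarTower.of_algebraMap_eq fun _ => rfl
  have t3 : IsScalarTower F E N := IsScalarTower.of_algebraMap_eq fun x => by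
    rw [IsScalarTower.algebraMap_apply F K N, IsScalarTower.algebraMap_apply E K N,
      ← IsScalarTower.algebraMap_apply F E K]
  have t4 : IsScalarTower k E N := IsScalarTower.of_algebraMap_eq fun c => by
    rw [IsScalarTower.algebraMap_apply k F N, IsScalarTower.algebraMap_apply k F E,
      ← IsScalarTower.algebraMap_apply F E N]
  have hfd : FiniteDimensional E N := FiniteDimensional.right F E N
  have hg : IsGalois E N := IsGalois.tower_top_of_isGalois F E N
  have hWo : Ov k W := fun c => by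
    rw [IsScalarTower.algebraMap_apply k F N]
    have h3 : algebraMap k F c ∈ W.comap (algebraMap F N) := by rw [hW]; exact hv c
    exact h3
  let jE : E →ₐ[F] N := IsScalarTower.toAlgHom F E N
  let jK : K →ₐ[E] N := IsScalarTower.toAlgHom E K N
  let w : ValuationSubring E := W.comap (algebraMap E N)
  have hw : w.comap (algebraMap F E) = v₀ := by
    rw [← hW]
    ext x
    change algebraMap E N (algebraMap F E x) ∈ W ↔ algebraMap F N x ∈ W
    rw [← IsScalarTower.algebraMap_apply]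
  set D := stab W (RV v₀ P) with hD
  set GE := jE.fieldRange.fixingSubgroup with hGE
  set GK := j.fieldRange.fixingSubgroup with hGK
  have hKE : GK ≤ GE := by
    intro σ hσ
    rw [hGE, IntermediateField.mem_fixingSubgroup_iff]
    rintro _ ⟨x, rfl⟩
    exact (IntermediateField.mem_fixingSubgroup_iff _ _).1 hσ _ ⟨algebraMap E K x, rfl⟩
  have i1 : GE.relIndex D ≤ d₁ := h1 N jE W hW
  -- restriction of scalars
  let φ : (N ≃ₐ[E] N) →* (N ≃ₐ[F] N) :=
    { toFun := fun σ => σ.restrictScalars F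
      map_one' := rfl
      map_mul' := fun σ τ => rfl }
  set DE := stab W (RV w Q) with hDE
  have hPE : IsModel (upm E P) := hP.upm
  have hup : upm N (upm E P) = upm N P := by
    ext x
    constructor
    · rintro ⟨_, ⟨a, ha, rfl⟩, rfl⟩
      exact ⟨a, ha, IsScalarTower.algebraMap_apply F E N a⟩
    · rintro ⟨a, ha, rfl⟩
      exact ⟨algebraMap F E a, ⟨a, ha, rfl⟩, (IsScalarTower.algebraMap_apply F E N a).symm⟩
  have hNV : NV W (upm N P) = NV W (upm N Q) := by
    rw [← hup]
    exact NV_upm_eq hPE hQ hb hT hu h hWo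
  have hstab : ∀ σ : N ≃ₐ[E] N, σ ∈ DE ↔ φ σ ∈ D := by
    intro σ
    have h3 : σ ∈ stab W (RV (W.comap (algebraMap E N)) Q) ↔
        ∀ x ∈ NV W (upm N Q), σ x ∈ NV W (upm N Q) := mem_stab_iff_NV W hWo hQ
    have h4 : φ σ ∈ stab W (RV (W.comap (algebraMap F N)) P) ↔
        ∀ x ∈ NV W (upm N P), φ σ x ∈ NV W (upm N P) := mem_stab_iff_NV W hWo hP
    rw [hW, hNV] at h4
    rw [hD, hDE, h4]
    exact h3
  have hmap : DE.map φ = GE ⊓ D := by
    ext τ
    constructor
    · rintro ⟨σ, hσ, rfl⟩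
      refine ⟨?_, (hstab σ).1 hσ⟩
      change φ σ ∈ GE
      rw [hGE, IntermediateField.mem_fixingSubgroup_iff]
      rintro _ ⟨x, rfl⟩
      exact σ.commutes x
    · rintro ⟨hτE, hτD⟩
      let σ : N ≃ₐ[E] N := { τ with
        commutes' := fun x =>
          (IntermediateField.mem_fixingSubgroup_iff _ _).1 hτE _ ⟨x, rfl⟩ }
      have hφσ : φ σ = τ := by ext x; rfl
      exact ⟨σ, (hstab σ).2 (by rw [hφσ]; exact hτD), hφσ⟩
  have hcomap : GK.comap φ = jK.fieldRange.fixingSubgroup := by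
    ext σ
    rw [Subgroup.mem_comap, hGK, IntermediateField.mem_fixingSubgroup_iff,
      IntermediateField.mem_fixingSubgroup_iff]
    constructor
    · rintro h3 _ ⟨x, rfl⟩
      exact h3 _ ⟨x, rfl⟩
    · rintro h3 _ ⟨x, rfl⟩
      exact h3 _ ⟨x, rfl⟩
  have i2 : GK.relIndex (GE ⊓ D) ≤ d₂ := by
    rw [← hmap, ← Subgroup.relIndex_comap, hcomap]
    exact h2 w hw N jK W rfl
  have h5 : GK.relIndex D = GK.relIndex (GE ⊓ D) * GE.relIndex D := by
    have h6 : GK ⊓ D ≤ GE ⊓ D := inf_le_inf_right _ hKE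
    have h7 := Subgroup.relIndex_mul_relIndex (GK ⊓ D) (GE ⊓ D) D h6 inf_le_right
    rw [Subgroup.inf_relIndex_right, Subgroup.inf_relIndex_right] at h7
    rw [← h7]
    congr 1
    rw [← Subgroup.inf_relIndex_right GK (GE ⊓ D)]
    congr 1
    rw [← inf_assoc, inf_eq_left.2 hKE]
  rw [h5, mul_comm]
  exact Nat.mul_le_mul i1 i2

end Tower

end Pool.Agent.TG77
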