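import Pool.Agent.Lib.TG_h77.Orbit
import Pool.Agent.Lib.TG_h80.HH
import Pool.Agent.Lib.TG.A5

/-!
# TANK G, row C42-4: local degrees from lengths

`LDeg M v₀ (RV v₀ P) d` if over every valuation ring `W` of `M` above `v₀` there is a ring
`O ≤ NV W P` with field of fractions `M` and elements `h_i` of `F` of positive value in `O` with
`dim_k O / (h) O ≤ d`.
-/

set_option autoImplicit false

namespace Pool.Agent.TG77

open Module
open Pool.Agent.TG Pool.Agent.TG.Cnt
open Pool.Agent.LU2 (locV le_locV locV_mem locV_inv locV_mono)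

universe u

section Up

variable {k F N : Type u} [Field k] [Field F] [Field N] [Algebra k F] [Algebra F N] [Algebra k N]
  [IsScalarTower k F N]

/-- Algebraic extensions of zero-dimensional valuation rings are zero-dimensional. -/
theorem zdim_up [IsAlgClosed k] [Algebra.IsAlgebraic F N] {V : ValuationSubring N}
    (hV : ZDim k (V.comap (algebraMap F N))) : ZDim k V := by
  classical
  have hov : Ov k V := fun c => by
    rw [IsScalarTower.algebraMap_apply k F N]
    exact hV.ov c
  refine ⟨hov, fun x hx => ?_⟩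
  obtain ⟨p, hp0, hp⟩ := Algebra.IsAlgebraic.isAlgebraic (R := F) x
  -- the coefficient of minimal value
  obtain ⟨j, hj, hjmin⟩ : ∃ j, p.coeff j ≠ 0 ∧
      ∀ i, (V.comap (algebraMap F N)).valuation (p.coeff i) ≤
        (V.comap (algebraMap F N)).valuation (p.coeff j) := by
    obtain ⟨j, hj, hjm⟩ := Finset.exists_max_image p.support
      (fun i => (V.comap (algebraMap F N)).valuation (p.coeff i))
      (Polynomial.support_nonempty.2 hp0)
    refine ⟨j, Polynomial.mem_support_iff.1 hj, fun i => ?_⟩
    by_cases hi : i ∈ p.support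
    · exact hjm i hi
    · rw [Polynomial.notMem_support_iff.1 hi, map_zero]
      exact zero_le
  have hmem : ∀ i, p.coeff i / p.coeff j ∈ V.comap (algebraMap F N) := by
    intro i
    rw [← ValuationSubring.valuation_le_one_iff, map_div₀]
    exact div_le_one_of_le₀ (hjmin i) zero_le
  choose c hc using fun i => hV.res _ (hmem i)
  let q : Polynomial k := ∑ i ∈ Finset.range (p.natDegree + 1), Polynomial.monomial i (c i)
  have hcj : c j = 1 := by
    have h1 := hc j
    rw [div_self hj, ← map_one (algebraMap k F), ← map_sub] at h1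
    by_contra hne
    have h2 : (1 : k) - c j ≠ 0 := fun h => hne (sub_eq_zero.1 h).symm
    have h3 : (V.comap (algebraMap F N)).valuation (algebraMap k F (1 - c j)) = 1 :=
      val_eq_one_of_mem_inv (by rw [Ne, map_eq_zero]; exact h2) (hV.ov _)
        (by rw [← map_inv₀]; exact hV.ov _)
    rw [h3] at h1
    exact lt_irrefl _ h1
  have hjd : j ∈ Finset.range (p.natDegree + 1) :=
    Finset.mem_range.2 (Nat.lt_succ_of_le (Polynomial.le_natDegree_of_ne_zero hj))
  have hqj : q.coeff j = 1 := by
    change (∑ i ∈ Finset.range (p.natDegree + 1), Polynomial.monomial i (c i)).coeff j = 1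
    rw [Polynomial.finsetSum_coeff, Finset.sum_eq_single j]
    · rw [Polynomial.coeff_monomial, if_pos rfl, hcj]
    · intro i _ hij
      rw [Polynomial.coeff_monomial, if_neg hij]
    · intro h; exact absurd hjd h
  have hq0 : q ≠ 0 := by
    intro h0
    rw [h0, Polynomial.coeff_zero] at hqj
    exact zero_ne_one hqj
  -- the value of `q x`
  have hqx : V.valuation (Polynomial.aeval x q) < 1 := by
    have h1 : Polynomial.aeval x q = - ∑ i ∈ Finset.range (p.natDegree + 1),
        algebraMap F N (p.coeff i / p.coeff j - algebraMap k F (c i)) * x ^ i := by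
      have h2 : ∑ i ∈ Finset.range (p.natDegree + 1),
          algebraMap F N (p.coeff i / p.coeff j) * x ^ i = 0 := by
        have h3 : Polynomial.aeval x p = 0 := hp
        rw [Polynomial.aeval_eq_sum_range] at h3
        have h4 : ∑ i ∈ Finset.range (p.natDegree + 1),
            algebraMap F N (p.coeff i / p.coeff j) * x ^ i =
            algebraMap F N (p.coeff j)⁻¹ *
              ∑ i ∈ Finset.range (p.natDegree + 1), p.coeff i • x ^ i := by
          rw [Finset.mul_sum]
          refine Finset.sum_congr rfl fun i _ => ?_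
          rw [Algebra.smul_def, div_eq_mul_inv, map_mul]
          ring
        rw [h4, h3, mul_zero]
      have h5 : Polynomial.aeval x q =
          ∑ i ∈ Finset.range (p.natDegree + 1), algebraMap k N (c i) * x ^ i := by
        change Polynomial.aeval x (∑ i ∈ Finset.range (p.natDegree + 1),
          Polynomial.monomial i (c i)) = _
        rw [map_sum]
        refine Finset.sum_congr rfl fun i _ => ?_
        rw [Polynomial.aeval_monomial]
      rw [h5]
      have h6 : ∑ i ∈ Finset.range (p.natDegree + 1),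
          algebraMap F N (p.coeff i / p.coeff j - algebraMap k F (c i)) * x ^ i =
          ∑ i ∈ Finset.range (p.natDegree + 1), algebraMap F N (p.coeff i / p.coeff j) * x ^ i -
          ∑ i ∈ Finset.range (p.natDegree + 1), algebraMap k N (c i) * x ^ i := by
        rw [← Finset.sum_sub_distrib]
        refine Finset.sum_congr rfl fun i _ => ?_
        rw [map_sub, ← IsScalarTower.algebraMap_apply]
        ring
      rw [h6, h2, zero_sub, neg_neg]
    rw [h1, Valuation.map_neg]
    refine Valuation.map_sum_lt _ one_ne_zero fun i _ => ?_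
    rw [map_mul]
    have h2 : V.valuation (algebraMap F N (p.coeff i / p.coeff j - algebraMap k F (c i))) < 1 :=
      (comap_lt_one V _).1 (hc i)
    have h3 : V.valuation (x ^ i) ≤ 1 := (V.valuation_le_one_iff _).2 (pow_mem hx i)
    exact (mul_le_of_le_one_right' h3).trans_lt h2
  -- factor `q`
  have hsplit : q.Splits := IsAlgClosed.splits q
  have h1 := hsplit.eq_prod_roots
  have h2 : Polynomial.aeval x q = algebraMap k N q.leadingCoeff *
      (q.roots.map fun r => x - algebraMap k N r).prod := by
    conv_lhs => rw [h1]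
    rw [map_mul, Polynomial.aeval_C, map_multiset_prod, Multiset.map_map]
    congr 2
    refine Multiset.map_congr rfl fun r _ => ?_
    simp
  by_contra hcon
  push Not at hcon
  have h3 : ∀ r : k, V.valuation (x - algebraMap k N r) = 1 := fun r =>
    le_antisymm ((V.valuation_le_one_iff _).2 (V.toSubring.sub_mem hx (hov r))) (hcon r)
  have h4 : V.valuation (Polynomial.aeval x q) = 1 := by
    rw [h2, map_mul, map_multiset_prod, Multiset.map_map]
    have h5 : V.valuation (algebraMap k N q.leadingCoeff) = 1 :=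
      val_eq_one_of_mem_inv (by
        rw [Ne, map_eq_zero]; exact Polynomial.leadingCoeff_ne_zero.2 hq0) (hov _)
        (by rw [← map_inv₀]; exact hov _)
    rw [h5, one_mul]
    refine Multiset.prod_eq_one fun y hy => ?_
    obtain ⟨r, _, rfl⟩ := Multiset.mem_map.1 hy
    exact h3 r
  rw [h4] at hqx
  exact lt_irrefl _ hqx

end Up

section LDeg

variable {k F M : Type u} [Field k] [Field F] [Field M] [Algebra k F] [Algebra F M] [Algebra k M]
  [IsScalarTower k F M]

/-- The data over one valuation ring `W` of `M`. -/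
structure LenAt (W : ValuationSubring M) (P : Submodule k F) (d : ℕ) : Prop where
  ex : ∃ (O : Subalgebra k M) (r : ℕ) (h : Fin r → F) (hh : ∀ i, algebraMap F M (h i) ∈ O),
    O ≤ NV W (upm M P) ∧ (∀ x : M, ∃ a ∈ O, ∃ b ∈ O, b ≠ 0 ∧ x = a / b) ∧
    (∀ i, W.valuation (algebraMap F M (h i)) < 1) ∧
    FiniteDimensional k (O ⧸ Ideal.span (Set.range fun i => (⟨algebraMap F M (h i), hh i⟩ : O))) ∧
    finrank k (O ⧸ Ideal.span (Set.range fun i => (⟨algebraMap F M (h i), hh i⟩ : O))) ≤ d

/-- Elements of `NV` of a subfield. -/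
theorem map_NV_le {M N : Type u} [Field M] [Field N] [Algebra F M] [Algebra k M] [Algebra F N]
    [Algebra k N] [IsScalarTower k F M] [IsScalarTower k F N] (j : M →ₐ[F] N)
    (W : ValuationSubring N) (hW : Ov k W) {P : Submodule k F} (hP : IsModel P) {x : M}
    (hx : x ∈ NV (W.comap (j : M →+* N)) (upm M P)) : j x ∈ NV W (upm N P) := by
  let _ : Algebra M N := j.toRingHom.toAlgebra
  have h1 : IsScalarTower F M N := IsScalarTower.of_algebraMap_eq fun x => (j.commutes x).symm
  have h2 : IsScalarTower k M N := IsScalarTower.of_algebraMap_eq fun c => by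
    rw [IsScalarTower.algebraMap_apply k F N, IsScalarTower.algebraMap_apply k F M,
      ← IsScalarTower.algebraMap_apply F M N]
  have hWM : Ov k (W.comap (algebraMap M N)) := fun c => by
    change algebraMap M N (algebraMap k M c) ∈ W
    rw [← IsScalarTower.algebraMap_apply]
    exact hW c
  have hcc : (W.comap (algebraMap M N)).comap (algebraMap F M) = W.comap (algebraMap F N) := by
    ext y
    change algebraMap M N (algebraMap F M y) ∈ W ↔ algebraMap F N y ∈ W
    rw [← IsScalarTower.algebraMap_apply]
  change x ∈ NV (W.comap (algebraMap M N)) (upm M P) at hx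
  change algebraMap M N x ∈ NV W (upm N P)
  rw [NV_upm _ hWM hP, hcc] at hx
  rw [NV_upm W hW hP]
  obtain ⟨a, ha, b, hb, hvb, hab⟩ := hx
  refine ⟨algebraMap M N a, ?_, algebraMap M N b, ?_, ?_, ?_⟩
  · exact (ncl_up_iff (L := M) (N := N) a).1 ha
  · exact (ncl_up_iff (L := M) (N := N) b).1 hb
  · exact (comap_eq_one W b).1 hvb
  · rw [hab, map_div₀]

/-- **The index of the stabiliser from a length.** -/
theorem relIndex_of_lenAt [IsAlgClosed k] (hF : (⊤ : IntermediateField k F).FG)
    {P : Submodule k F} (hP : IsModel P) (hPf : Fin' P) {d : ℕ}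
    {N : Type u} [Field N] [Algebra k N] [Algebra F N] [IsScalarTower k F N]
    [FiniteDimensional F N] [IsGalois F N] (j : M →ₐ[F] N) (W : ValuationSubring N)
    (hv : ZDim k (W.comap (algebraMap F N))) (hlen : LenAt (W.comap (j : M →+* N)) P d) :
    j.fieldRange.fixingSubgroup.relIndex (stab W (RV (W.comap (algebraMap F N)) P)) ≤ d := by
  obtain ⟨O, r, h, hh, hO, hfr, hpos, hfd, hle⟩ := hlen.ex
  have hzN : ZDim k W := zdim_up (F := F) hv
  have hmod : IsModel (upm N P) := hP.upm
  obtain ⟨f, hf⟩ := exists_isMin hv.ov hP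
  have hf' : IsMin W (upm N P) (algebraMap F N f) := (isMin_upm W).2 hf
  have hN : (⊤ : IntermediateField k N).FG := by
    rw [IntermediateField.fg_top_iff] at hF ⊢
    exact Algebra.EssFiniteType.comp k F N
  have halg : ∀ x : N, IsAlgebraic (ch (upm N P) (algebraMap F N f)) x := by
    intro x
    have h1 : Algebra.IsAlgebraic (ch P f) F := ⟨fun y => hPf.isAlgebraic hf.ne y⟩
    have h2 : Algebra.IsAlgebraic (ch P f) N := Algebra.IsAlgebraic.trans (ch P f) F N
    obtain ⟨p, hp0, hp⟩ := h2.isAlgebraic x
    have hmem : ∀ a : ch P f, algebraMap F N a ∈ ch (upm N P) (algebraMap F N f) := fun a => by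
      rw [ch_upm]
      exact ⟨a, a.2, rfl⟩
    let φ : ch P f →+* ch (upm N P) (algebraMap F N f) :=
      ((algebraMap F N).comp (ch P f).val.toRingHom).codRestrict _ hmem
    have hφ : Function.Injective φ := fun a b hab =>
      Subtype.ext ((algebraMap F N).injective (congrArg Subtype.val hab))
    refine ⟨p.map φ, (Polynomial.map_ne_zero_iff hφ).2 hp0, ?_⟩
    rw [Polynomial.aeval_def, Polynomial.eval₂_map]
    exact hp
  -- the image of `O`
  let jk : M →ₐ[k] N := j.restrictScalars k
  let O' : Subalgebra k N := O.map jk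
  let e : O ≃ₐ[k] O' := O.equivMapOfInjective jk j.injective
  have hO' : O' ≤ NV W (upm N P) := by
    rintro _ ⟨x, hx, rfl⟩
    exact map_NV_le j W hzN.ov hP (hO hx)
  have hh' : ∀ i, algebraMap F N (h i) ∈ O' := fun i =>
    ⟨algebraMap F M (h i), hh i, j.commutes (h i)⟩
  have hmap : Ideal.span (Set.range fun i => (⟨algebraMap F N (h i), hh' i⟩ : O')) =
      (Ideal.span (Set.range fun i => (⟨algebraMap F M (h i), hh i⟩ : O))).map (e : O →+* O') := by
    rw [Ideal.map_span]
    congr 1
    ext x
    constructor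
    · rintro ⟨i, rfl⟩
      refine ⟨⟨algebraMap F M (h i), hh i⟩, ⟨i, rfl⟩, ?_⟩
      exact Subtype.ext (j.commutes (h i))
    · rintro ⟨_, ⟨i, rfl⟩, rfl⟩
      exact ⟨i, Subtype.ext (j.commutes (h i)).symm⟩
  let eq : (O ⧸ Ideal.span (Set.range fun i => (⟨algebraMap F M (h i), hh i⟩ : O))) ≃ₐ[k]
      (O' ⧸ Ideal.span (Set.range fun i => (⟨algebraMap F N (h i), hh' i⟩ : O'))) :=
    Ideal.quotientEquivAlg _ _ e hmap
  have hfd' : FiniteDimensional k
      (O' ⧸ Ideal.span (Set.range fun i => (⟨algebraMap F N (h i), hh' i⟩ : O'))) :=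
    Module.Finite.equiv eq.toLinearEquiv
  have hle' : finrank k
      (O' ⧸ Ideal.span (Set.range fun i => (⟨algebraMap F N (h i), hh' i⟩ : O'))) ≤ d := by
    rw [← eq.toLinearEquiv.finrank_eq]
    exact hle
  refine le_trans ?_ hle'
  refine relIndex_le (f := algebraMap F N f) hN hzN hmod hf' halg _ _ ?_ O' hO' ?_
    (fun i => algebraMap F N (h i)) hh' (fun σ _ i => σ.commutes (h i)) ?_
  · intro σ hσ
    exact (mem_stab_iff_NV W hzN.ov hP).1 hσ
  · intro σ _ hσ
    rw [IntermediateField.mem_fixingSubgroup_iff]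
    rintro _ ⟨x, rfl⟩
    obtain ⟨a, ha, b, hb, hb0, rfl⟩ := hfr x
    change σ (j (a / b)) = j (a / b)
    rw [map_div₀, map_div₀]
    have h1 : σ (j a) = j a := hσ _ ⟨a, ha, rfl⟩
    have h2 : σ (j b) = j b := hσ _ ⟨b, hb, rfl⟩
    rw [h1, h2]
  · intro i
    have h1 := hpos i
    rw [← j.commutes (h i)]
    let _ : Algebra M N := j.toRingHom.toAlgebra
    exact (comap_lt_one W _).1 h1

/-- **Local degrees from lengths.** -/
theorem ldeg_of_len [IsAlgClosed k] (hF : (⊤ : IntermediateField k F).FG)
    {v₀ : ValuationSubring F} (hv : ZDim k v₀) {P : Submodule k F} (hP : IsModel P)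
    (hPf : Fin' P) {d : ℕ}
    (hlen : ∀ W : ValuationSubring M, W.comap (algebraMap F M) = v₀ → LenAt W P d) :
    LDeg M v₀ (RV v₀ P) d := by
  intro N _ _ _ _ _ _ j W hW
  subst hW
  refine relIndex_of_lenAt hF hP hPf j W hv (hlen _ ?_)
  ext x
  change j (algebraMap F M x) ∈ W ↔ algebraMap F N x ∈ W
  rw [j.commutes]

end LDeg

end Pool.Agent.TG77
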