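import Pool.Agent.Lib.TG_h77.Poly
import Pool.Agent.Lib.TG_h77.H1All
import Pool.Agent.Lib.TG.ZDim

/-!
# TANK G, row ASM-b: `LenAt` for a finite map given by forms, in one chart; base point freeness

`lenAt_chart`: `M / F`, `y : Fin N → M` the affine coordinates, `g j` polynomials whose ratios are
in `F`, an inclusion of ideals in `k[X]` at the point `η`.
`RV_le_NV_of_zdim`, `NV_eq_of_zdim`: base point freeness at the zero-dimensional valuation rings.
-/

set_option autoImplicit false

namespace Pool.Agent.TG77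

open Module
open Pool.Agent.TG Pool.Agent.TG.Cnt
open Pool.Agent.LU2 (locV le_locV locV_mem locV_inv locV_mono)

universe u

section Zd

variable {k M : Type u} [Field k] [Field M] [Algebra k M]

/-- Below every valuation ring there is a zero-dimensional one. -/
theorem exists_zdim_le [IsAlgClosed k] {V : ValuationSubring M} (hV : Ov k V) :
    ∃ W : ValuationSubring M, W ≤ V ∧ ZDim k W := by
  have hbot : (⊥ : Subalgebra k M).FG := Subalgebra.fg_bot
  obtain ⟨W, h1, h2, -, -⟩ := exists_zdim_centre V (⊥ : Subalgebra k M) hbot (by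
    intro a ha
    obtain ⟨c, rfl⟩ := Algebra.mem_bot.1 ha
    exact hV c) ⊥ bot_ne_top (by
    rintro ⟨a, ha⟩ h
    obtain ⟨c, rfl⟩ := Algebra.mem_bot.1 ha
    have h1 : c = 0 := const_eq_zero hV h
    subst h1
    rw [Ideal.mem_bot]
    exact Subtype.ext (map_zero _))
  exact ⟨W, h1, h2⟩

/-- Base point freeness is checked at the zero-dimensional valuation rings. -/
theorem bpf_of_zdim [IsAlgClosed k] {S T : Submodule k M} (hle : T ≤ S)
    (h : ∀ V : ValuationSubring M, ZDim k V → ∃ f ∈ T, IsMin V S f) : Bpf S T := by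
  refine ⟨hle, fun V hV => ?_⟩
  obtain ⟨W, hWV, hW⟩ := exists_zdim_le hV
  obtain ⟨f, hf, hm⟩ := h W hW
  exact ⟨f, hf, hm.of_le hWV⟩

/-- Same local rings of the normalisations. -/
theorem NV_eq_of_bpf {S T : Submodule k M} (h : Bpf S T) (hT : IsModel T)
    {W : ValuationSubring M} (hW : Ov k W) : NV W S = NV W T := by
  obtain ⟨f, hf⟩ := exists_isMin hW hT
  rw [NV_eq (h.isMin hW hf), NV_eq hf, h.chN_eq hf.mem hf.ne]

end Zd

section Up

variable {k F N : Type u} [Field k] [Field F] [Field N] [Algebra k F] [Algebra k N] [Algebra F N]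
  [IsScalarTower k F N]

theorem Bpf.upm' {S T : Submodule k F} (h : Bpf S T) : Bpf (upm N S) (upm N T) := by
  refine ⟨Submodule.map_mono h.le, fun V hV => ?_⟩
  obtain ⟨f, hf, hm⟩ := h.min (V.comap (algebraMap F N)) (ov_comap hV)
  exact ⟨algebraMap F N f, algebraMap_mem_upm.2 hf, (isMin_upm V).2 hm⟩

theorem upm_pow (S : Submodule k F) (e : ℕ) : upm N (S ^ e) = upm N S ^ e := by
  unfold upm
  exact Submodule.map_pow S (IsScalarTower.toAlgHom k F N) e

end Up

section Poly

variable {k : Type u} [Field k] {N : ℕ}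

/-- Translation `X ↦ X + η`. -/
noncomputable def trl (η : Fin N → k) :
    MvPolynomial (Fin N) k →ₐ[k] MvPolynomial (Fin N) k :=
  MvPolynomial.aeval fun i => MvPolynomial.X i + MvPolynomial.C (η i)

theorem trl_sub (η : Fin N → k) (i : Fin N) :
    trl η (MvPolynomial.X i - MvPolynomial.C (η i)) = MvPolynomial.X i := by
  rw [map_sub, trl, MvPolynomial.aeval_X, MvPolynomial.aeval_C, MvPolynomial.algebraMap_eq]
  ring

theorem constantCoeff_trl (η : Fin N → k) (q : MvPolynomial (Fin N) k) :
    MvPolynomial.constantCoeff (trl η q) = MvPolynomial.eval η q := by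
  have h : (MvPolynomial.constantCoeff (σ := Fin N) (R := k)).comp (trl η : _ →+* _) =
      MvPolynomial.eval η := by
    refine MvPolynomial.ringHom_ext (fun c => ?_) fun i => ?_
    · rw [RingHom.comp_apply, MvPolynomial.eval_C]
      have h1 : (trl η : MvPolynomial (Fin N) k →+* MvPolynomial (Fin N) k)
          (MvPolynomial.C c) = MvPolynomial.C c := by
        change trl η (MvPolynomial.C c) = _
        rw [trl, MvPolynomial.aeval_C, MvPolynomial.algebraMap_eq]
      rw [h1, MvPolynomial.constantCoeff_C]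
    · rw [RingHom.comp_apply, MvPolynomial.eval_X]
      have h1 : (trl η : MvPolynomial (Fin N) k →+* MvPolynomial (Fin N) k)
          (MvPolynomial.X i) = MvPolynomial.X i + MvPolynomial.C (η i) := by
        change trl η (MvPolynomial.X i) = _
        rw [trl, MvPolynomial.aeval_X]
      rw [h1, map_add, MvPolynomial.constantCoeff_X, MvPolynomial.constantCoeff_C, zero_add]
  exact RingHom.congr_fun h q

theorem aeval_trl {M : Type u} [Field M] [Algebra k M] (y : Fin N → M) (η : Fin N → k)
    (q : MvPolynomial (Fin N) k) :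
    MvPolynomial.aeval (fun i => y i - algebraMap k M (η i)) (trl η q) =
      MvPolynomial.aeval y q := by
  have h : (MvPolynomial.aeval fun i => y i - algebraMap k M (η i)).comp (trl η) =
      MvPolynomial.aeval y := by
    refine MvPolynomial.algHom_ext fun i => ?_
    rw [AlgHom.comp_apply, trl, MvPolynomial.aeval_X, MvPolynomial.aeval_X, map_add,
      MvPolynomial.aeval_X, MvPolynomial.aeval_C, sub_add_cancel]
  exact DFunLike.congr_fun h q

end Poly

section Len

variable {k F M : Type u} [Field k] [Field F] [Field M] [Algebra k F] [Algebra F M] [Algebra k M]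
  [IsScalarTower k F M]

/-- **`LenAt` in one chart.** -/
theorem lenAt_chart {W : ValuationSubring M} (hW : ZDim k W) {N r T : ℕ} (y : Fin N → M)
    (hgen : IntermediateField.adjoin k (Set.range y) = ⊤) (η : Fin N → k)
    (hη : ∀ i, W.valuation (y i - algebraMap k M (η i)) < 1)
    (g : Fin r → MvPolynomial (Fin N) k) (i₀ : Fin r) (h0 : MvPolynomial.eval η (g i₀) ≠ 0)
    (f : Fin r → F) (hf : ∀ j, algebraMap F M (f j) =
      MvPolynomial.aeval y (g j) / MvPolynomial.aeval y (g i₀))
    (Q : MvPolynomial (Fin N) k) (hQ : MvPolynomial.aeval y Q = 0)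
    (hI : (Ideal.span (Set.range fun i : Fin N => (MvPolynomial.X i - MvPolynomial.C (η i) :
        MvPolynomial (Fin N) k))) ^ T ≤
      Ideal.span (Set.range fun j => MvPolynomial.C (MvPolynomial.eval η (g i₀)) * g j -
        MvPolynomial.C (MvPolynomial.eval η (g j)) * g i₀) ⊔ Ideal.span {Q} ⊔
      (Ideal.span (Set.range fun i : Fin N => (MvPolynomial.X i - MvPolynomial.C (η i) :
        MvPolynomial (Fin N) k))) ^ (T + 1))
    {P : Submodule k F} (hRN : RV W (Pm k y) ≤ NV W (upm M P)) : LenAt W P (T ^ N) := by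
  have hyW : ∀ i, y i ∈ W := fun i => by
    have h1 : y i = (y i - algebraMap k M (η i)) + algebraMap k M (η i) := by ring
    rw [h1]
    exact W.add_mem _ _ ((W.valuation_le_one_iff _).1 (hη i).le) (hW.ov _)
  have hL : IsModel (Pm k y) := Pm_model y
  have hmin : IsMin W (Pm k y) 1 := isMin_Pm hW.ov hyW
  have hyR : ∀ i, y i ∈ RV W (Pm k y) := fun i => by
    have h1 := div_mem_RV hmin (mem_Pm (k := k) y i)
    rwa [div_one] at h1
  have hqR : ∀ q : MvPolynomial (Fin N) k, MvPolynomial.aeval y q ∈ RV W (Pm k y) := by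
    intro q
    have h1 : MvPolynomial.aeval y q ∈ Algebra.adjoin k (Set.range y) := by
      rw [Algebra.adjoin_range_eq_range_aeval]
      exact ⟨q, rfl⟩
    exact (Algebra.adjoin_le (S := RV W (Pm k y)) (by rintro _ ⟨i, rfl⟩; exact hyR i)) h1
  set z : Fin N → M := fun i => y i - algebraMap k M (η i) with hz
  have hzq : ∀ q, MvPolynomial.aeval z (trl η q) = MvPolynomial.aeval y q := aeval_trl y η
  have hval0 : W.valuation (MvPolynomial.aeval y (g i₀)) = 1 := by
    rw [← hzq, val_aeval_eq_one hW.ov hη, constantCoeff_trl]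
    exact h0
  have hg0 : MvPolynomial.aeval y (g i₀) ≠ 0 := ne_zero_of_val_eq_one hval0
  let hp : Fin r → MvPolynomial (Fin N) k := fun j =>
    MvPolynomial.C (MvPolynomial.eval η (g i₀)) * g j -
      MvPolynomial.C (MvPolynomial.eval η (g j)) * g i₀
  let h : Fin r → F := fun j => algebraMap k F (MvPolynomial.eval η (g i₀)) * f j -
    algebraMap k F (MvPolynomial.eval η (g j))
  have hh : ∀ j, algebraMap F M (h j) =
      MvPolynomial.aeval y (hp j) / MvPolynomial.aeval y (g i₀) := by
    intro j
    change algebraMap F M (algebraMap k F (MvPolynomial.eval η (g i₀)) * f j -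
      algebraMap k F (MvPolynomial.eval η (g j))) = MvPolynomial.aeval y
      (MvPolynomial.C (MvPolynomial.eval η (g i₀)) * g j -
      MvPolynomial.C (MvPolynomial.eval η (g j)) * g i₀) / MvPolynomial.aeval y (g i₀)
    rw [map_sub, map_mul, hf, ← IsScalarTower.algebraMap_apply, ← IsScalarTower.algebraMap_apply,
      map_sub, map_mul, map_mul, MvPolynomial.aeval_C, MvPolynomial.aeval_C]
    field_simp
  have hhR : ∀ j, algebraMap F M (h j) ∈ RV W (Pm k y) := by
    intro j
    rw [hh, div_eq_mul_inv]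
    exact (RV W (Pm k y)).mul_mem (hqR _) (RV_inv (hqR _) hval0)
  have hh1 : ∀ j, W.valuation (algebraMap F M (h j)) < 1 := by
    intro j
    rw [hh, map_div₀, hval0, div_one, ← hzq]
    have h1 := val_aeval_sub hW.ov hη (trl η (hp j))
    have h2 : MvPolynomial.constantCoeff (trl η (hp j)) = 0 := by
      rw [constantCoeff_trl]
      change MvPolynomial.eval η (MvPolynomial.C (MvPolynomial.eval η (g i₀)) * g j -
        MvPolynomial.C (MvPolynomial.eval η (g j)) * g i₀) = 0
      rw [map_sub, map_mul, map_mul, MvPolynomial.eval_C, MvPolynomial.eval_C]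
      ring
    rw [h2, map_zero, sub_zero] at h1
    exact h1
  -- the ideal
  set m : Ideal (MvPolynomial (Fin N) k) :=
    Ideal.span (Set.range fun i : Fin N => (MvPolynomial.X i - MvPolynomial.C (η i) :
        MvPolynomial (Fin N) k)) with hm
  have hmX : m.map (trl η) =
      Ideal.span (Set.range (MvPolynomial.X : Fin N → MvPolynomial (Fin N) k)) := by
    rw [hm, Ideal.map_span, ← Set.range_comp]
    congr 2
    funext i
    exact trl_sub η i
  have hI' := Ideal.map_mono (f := trl η) hI
  rw [Ideal.map_sup, Ideal.map_pow, Ideal.map_pow, hmX] at hI'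
  have hfr : ∀ x : M, ∃ a ∈ RV W (Pm k y), ∃ b ∈ RV W (Pm k y), b ≠ 0 ∧ x = a / b := by
    intro x
    have hx : x ∈ IntermediateField.adjoin k (Set.range y) := by rw [hgen]; trivial
    obtain ⟨a, ha, b, hb, hab⟩ := (IntermediateField.mem_adjoin_iff_div).1 hx
    have hle : Algebra.adjoin k (Set.range y) ≤ RV W (Pm k y) :=
      Algebra.adjoin_le (by rintro _ ⟨i, rfl⟩; exact hyR i)
    by_cases hb0 : b = 0
    · exact ⟨0, Subalgebra.zero_mem _, 1, Subalgebra.one_mem _, one_ne_zero, by
        rw [hab, hb0, div_zero, zero_div]⟩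
    · exact ⟨a, hle ha, b, hle hb, hb0, hab⟩
  refine lenAt_of_pow' hW hL hRN hmin hfr z (fun i => ?_) hη ?_ _ hI' h hhR hh1 ?_
  · exact (RV W (Pm k y)).sub_mem (hyR i) ((RV W (Pm k y)).algebraMap_mem _)
  · rw [ch_Pm]
    refine Algebra.adjoin_le ?_
    rintro _ ⟨i, rfl⟩
    have h1 : y i = z i + algebraMap k M (η i) := by rw [hz]; ring
    rw [h1]
    exact Subalgebra.add_mem _ (Algebra.subset_adjoin ⟨i, rfl⟩) (Subalgebra.algebraMap_mem _ _)
  · intro a ha
    rw [Ideal.map_sup, Ideal.map_span, Ideal.map_span, Set.image_singleton, ← Set.range_comp] at ha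
    obtain ⟨b, hb, c, hc, rfl⟩ := Submodule.mem_sup.1 ha
    obtain ⟨q, rfl⟩ := Ideal.mem_span_singleton'.1 hc
    obtain ⟨d, rfl⟩ := Ideal.mem_span_range_iff_exists_fun.1 hb
    refine ⟨fun j => MvPolynomial.aeval z (d j) * MvPolynomial.aeval y (g i₀), fun j => ?_, ?_⟩
    · refine (RV W (Pm k y)).mul_mem ?_ (hqR _)
      have h1 : MvPolynomial.aeval z (d j) ∈ Algebra.adjoin k (Set.range z) := by
        rw [Algebra.adjoin_range_eq_range_aeval]
        exact ⟨d j, rfl⟩
      refine (Algebra.adjoin_le (S := RV W (Pm k y)) ?_) h1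
      rintro _ ⟨i, rfl⟩
      exact (RV W (Pm k y)).sub_mem (hyR i) ((RV W (Pm k y)).algebraMap_mem _)
    · rw [map_add, map_mul, map_sum]
      have h2 : MvPolynomial.aeval z ((trl η) Q) = 0 := by rw [hzq, hQ]
      rw [h2, mul_zero, add_zero]
      refine Finset.sum_congr rfl fun j _ => ?_
      have h4 : MvPolynomial.aeval z (trl η (hp j)) = MvPolynomial.aeval y (hp j) := hzq _
      rw [map_mul]
      change MvPolynomial.aeval z (d j) * MvPolynomial.aeval z (trl η (hp j)) = _
      rw [h4, hh, mul_assoc, mul_div_cancel₀ _ hg0]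

end Len

end Pool.Agent.TG77
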