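import Mathlib

/-!
# TANK G, row C42-4: lengths of local rings from dimension counts in a polynomial ring

`O` local noetherian with residue field `k`, `π : A → O` with `m_A O = m_O`; if
`dim_k A / (I + m_A ^ (N + 1)) ≤ N` and `π (I) ⊆ J` then `dim_k O / J` is finite and at most
`dim_k A / (I + m_A ^ (N + 1))`.
-/

set_option autoImplicit false

namespace Pool.Agent.TG77

open Module IsLocalRing

section Level

variable {k O : Type*} [Field k] [CommRing O] [Algebra k O]

/-- If `dim O / (J + m^{N+1}) ≤ N` then `m^{N+1} ≤ J`. -/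
theorem pow_le_of_finrank_le [IsLocalRing O] [IsNoetherianRing O] (J : Ideal O) (N : ℕ)
    [FiniteDimensional k (O ⧸ (J ⊔ maximalIdeal O ^ (N + 1)))]
    (h : finrank k (O ⧸ (J ⊔ maximalIdeal O ^ (N + 1))) ≤ N) :
    maximalIdeal O ^ (N + 1) ≤ J := by
  classical
  set m := maximalIdeal O with hm
  set T : ℕ → Ideal O := fun i => J ⊔ m ^ i with hT
  have hanti : ∀ i, T (i + 1) ≤ T i := fun i =>
    sup_le_sup_left (Ideal.pow_le_pow_right (Nat.le_succ i)) J
  have hle : ∀ i, i ≤ N + 1 → T (N + 1) ≤ T i := fun i hi =>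
    sup_le_sup_left (Ideal.pow_le_pow_right hi) J
  -- the images in the finite dimensional quotient
  let q : O →ₗ[k] (O ⧸ T (N + 1)) := (Ideal.Quotient.mkₐ k (T (N + 1))).toLinearMap
  have hq : ∀ a, q a = 0 ↔ a ∈ T (N + 1) := fun a => Ideal.Quotient.eq_zero_iff_mem
  let S : ℕ → Submodule k (O ⧸ T (N + 1)) := fun i =>
    Submodule.map q ((T i).restrictScalars k)
  have hS : ∀ i, S (i + 1) ≤ S i := fun i => Submodule.map_mono (hanti i)
  -- a stationary level
  have hex : ∃ i, i ≤ N ∧ T i = T (i + 1) := by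
    by_contra hcon
    push Not at hcon
    have hlt : ∀ i, i ≤ N → S (i + 1) < S i := by
      intro i hi
      refine lt_of_le_of_ne (hS i) fun heq => ?_
      refine hcon i hi (le_antisymm ?_ (hanti i))
      intro a ha
      have h1 : q a ∈ S (i + 1) := by
        rw [heq]
        exact Submodule.mem_map_of_mem ha
      obtain ⟨b, hb, hba⟩ := Submodule.mem_map.1 h1
      have h2 : a - b ∈ T (N + 1) := by
        rw [← hq, map_sub, hba, sub_self]
      have h3 := hle (i + 1) (by omega) h2
      have h4 := (T (i + 1)).add_mem h3 hb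
      rwa [sub_add_cancel] at h4
    have hrank : ∀ j, j ≤ N + 1 → finrank k (S j) + j ≤ N := by
      intro j
      induction j with
      | zero =>
        intro _
        rw [add_zero]
        exact (Submodule.finrank_le _).trans h
      | succ j ih =>
        intro hj
        have h1 := ih (by omega)
        have h2 := Submodule.finrank_lt_finrank_of_lt (hlt j (by omega))
        omega
    have := hrank (N + 1) le_rfl
    omega
  obtain ⟨i, hi, hTi⟩ := hex
  have h1 : m ^ i ≤ J := by
    have h2 : m ^ i ≤ J ⊔ m • m ^ i := by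
      rw [smul_eq_mul, ← pow_succ']
      calc m ^ i ≤ T i := le_sup_right
        _ = T (i + 1) := hTi
    have h3 : (m ^ i).FG := IsNoetherian.noetherian _
    have h4 := Submodule.le_of_le_smul_of_le_jacobson_bot h3
      (IsLocalRing.maximalIdeal_le_jacobson ⊥) h2
    exact h4
  exact (Ideal.pow_le_pow_right (by omega)).trans h1

end Level

section Main

variable {k A O : Type*} [Field k] [CommRing A] [Algebra k A] [CommRing O] [Algebra k O]

/-- `O = π (A) + m_O ^ j`. -/
theorem exists_sub_mem_pow [IsLocalRing O] (π : A →ₐ[k] O) (mA : Ideal A)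
    (hmap : mA.map π = maximalIdeal O)
    (hres : ∀ a : O, ∃ c : k, a - algebraMap k O c ∈ maximalIdeal O) (j : ℕ) (a : O) :
    ∃ b : A, a - π b ∈ maximalIdeal O ^ j := by
  induction j generalizing a with
  | zero => exact ⟨0, by rw [pow_zero, Ideal.one_eq_top]; exact Submodule.mem_top⟩
  | succ j ih =>
    -- elements of `m_O ^ j` are sums of products with elements of `π (m_A ^ j)`
    obtain ⟨b, hb⟩ := ih a
    have hj : (mA ^ j).map π = maximalIdeal O ^ j := by rw [Ideal.map_pow, hmap]
    have h1 : a - π b ∈ (mA ^ j).map π := by rw [hj]; exact hb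
    have h2 : ∀ x ∈ (mA ^ j).map π, ∃ c ∈ mA ^ j, x - π c ∈ maximalIdeal O ^ (j + 1) := by
      intro x hx
      refine Submodule.span_induction (p := fun x _ => ∃ c ∈ mA ^ j,
        x - π c ∈ maximalIdeal O ^ (j + 1)) ?_ ?_ ?_ ?_ hx
      · rintro _ ⟨c, hc, rfl⟩
        exact ⟨c, hc, by rw [sub_self]; exact Ideal.zero_mem _⟩
      · exact ⟨0, Ideal.zero_mem _, by rw [map_zero, sub_zero]; exact Ideal.zero_mem _⟩
      · rintro x y _ _ ⟨c, hc, hxc⟩ ⟨d, hd, hyd⟩
        refine ⟨c + d, Ideal.add_mem _ hc hd, ?_⟩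
        rw [map_add, add_sub_add_comm]
        exact Ideal.add_mem _ hxc hyd
      · rintro o x hx ⟨c, hc, hxc⟩
        obtain ⟨κ, hκ⟩ := hres o
        refine ⟨κ • c, Submodule.smul_of_tower_mem _ κ hc, ?_⟩
        have hx' : x ∈ maximalIdeal O ^ j := by
          rw [← hj]; exact hx
        have h3 : o • x - π (κ • c) = (o - algebraMap k O κ) * x +
            algebraMap k O κ * (x - π c) := by
          rw [map_smul, smul_eq_mul, Algebra.smul_def]
          ring
        rw [h3]
        refine Ideal.add_mem _ ?_ (Ideal.mul_mem_left _ _ hxc)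
        rw [pow_succ']
        exact Ideal.mul_mem_mul hκ hx'
    obtain ⟨c, _, hc⟩ := h2 _ h1
    refine ⟨b + c, ?_⟩
    rw [map_add, ← sub_sub]
    exact hc

/-- **Lengths from dimension counts.** -/
theorem finrank_le_of_map [IsLocalRing O] [IsNoetherianRing O] (π : A →ₐ[k] O) (mA : Ideal A)
    (hmap : mA.map π = maximalIdeal O)
    (hres : ∀ a : O, ∃ c : k, a - algebraMap k O c ∈ maximalIdeal O)
    (I : Ideal A) (J : Ideal O) (hIJ : I.map π ≤ J) (N : ℕ)
    [FiniteDimensional k (A ⧸ (I ⊔ mA ^ (N + 1)))]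
    (h : finrank k (A ⧸ (I ⊔ mA ^ (N + 1))) ≤ N) :
    FiniteDimensional k (O ⧸ J) ∧
      finrank k (O ⧸ J) ≤ finrank k (A ⧸ (I ⊔ mA ^ (N + 1))) := by
  set T := J ⊔ maximalIdeal O ^ (N + 1) with hT
  have hle : I ⊔ mA ^ (N + 1) ≤ T.comap π := by
    rw [← Ideal.map_le_iff_le_comap, Ideal.map_sup, Ideal.map_pow, hmap]
    exact sup_le_sup_right hIJ _
  let φ : (A ⧸ (I ⊔ mA ^ (N + 1))) →ₐ[k] (O ⧸ T) := Ideal.quotientMapₐ T π hle
  have hφ : Function.Surjective φ := by
    intro y
    obtain ⟨a, rfl⟩ := Ideal.Quotient.mk_surjective y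
    obtain ⟨b, hb⟩ := exists_sub_mem_pow π mA hmap hres (N + 1) a
    refine ⟨Ideal.Quotient.mk _ b, ?_⟩
    change Ideal.Quotient.mk T (π b) = Ideal.Quotient.mk T a
    rw [Ideal.Quotient.eq]
    have h1 := (Ideal.neg_mem_iff _).2 hb
    rw [neg_sub] at h1
    exact (le_sup_right : _ ≤ T) h1
  have hfin : FiniteDimensional k (O ⧸ T) :=
    Module.Finite.of_surjective φ.toLinearMap hφ
  have hrank : finrank k (O ⧸ T) ≤ finrank k (A ⧸ (I ⊔ mA ^ (N + 1))) :=
    LinearMap.finrank_le_finrank_of_surjective (f := φ.toLinearMap) hφ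
  have hpow : maximalIdeal O ^ (N + 1) ≤ J := pow_le_of_finrank_le J N (hrank.trans h)
  have hTJ : T = J := sup_eq_left.2 hpow
  rw [hTJ] at hfin hrank
  exact ⟨hfin, hrank⟩

/-- **Lengths from `m_A ^ T ≤ I + m_A ^ (T + 1)`.** -/
theorem finrank_le_of_pow [IsLocalRing O] [IsNoetherianRing O] (π : A →ₐ[k] O) (mA : Ideal A)
    (hmap : mA.map π = maximalIdeal O)
    (hres : ∀ a : O, ∃ c : k, a - algebraMap k O c ∈ maximalIdeal O)
    (I : Ideal A) (J : Ideal O) (hIJ : I.map π ≤ J) (T : ℕ)
    [FiniteDimensional k (A ⧸ mA ^ T)] (h : mA ^ T ≤ I ⊔ mA ^ (T + 1)) :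
    FiniteDimensional k (O ⧸ J) ∧ finrank k (O ⧸ J) ≤ finrank k (A ⧸ mA ^ T) := by
  -- `m_O ^ T ≤ J`
  have h1 : maximalIdeal O ^ T ≤ J := by
    have h2 : maximalIdeal O ^ T ≤ J ⊔ maximalIdeal O • maximalIdeal O ^ T := by
      rw [smul_eq_mul, ← pow_succ', ← hmap, ← Ideal.map_pow, ← Ideal.map_pow]
      refine (Ideal.map_mono h).trans ?_
      rw [Ideal.map_sup]
      exact sup_le_sup_right hIJ _
    have h3 : (maximalIdeal O ^ T).FG := IsNoetherian.noetherian _
    exact Submodule.le_of_le_smul_of_le_jacobson_bot h3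
      (IsLocalRing.maximalIdeal_le_jacobson ⊥) h2
  have hle : mA ^ T ≤ J.comap π := by
    rw [← Ideal.map_le_iff_le_comap, Ideal.map_pow, hmap]
    exact h1
  let φ : (A ⧸ mA ^ T) →ₐ[k] (O ⧸ J) := Ideal.quotientMapₐ J π hle
  have hφ : Function.Surjective φ := by
    intro y
    obtain ⟨a, rfl⟩ := Ideal.Quotient.mk_surjective y
    obtain ⟨b, hb⟩ := exists_sub_mem_pow π mA hmap hres T a
    refine ⟨Ideal.Quotient.mk _ b, ?_⟩
    change Ideal.Quotient.mk J (π b) = Ideal.Quotient.mk J a
    rw [Ideal.Quotient.eq]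
    have h2 := (Ideal.neg_mem_iff _).2 hb
    rw [neg_sub] at h2
    exact h1 h2
  exact ⟨Module.Finite.of_surjective φ.toLinearMap hφ,
    LinearMap.finrank_le_finrank_of_surjective (f := φ.toLinearMap) hφ⟩

end Main

section Poly

variable {k : Type*} [Field k] {n : ℕ}

/-- `k[X] / (X)^T` is spanned by the monomials with exponents `< T`. -/
theorem finite_quot_pow (T : ℕ) :
    FiniteDimensional k (MvPolynomial (Fin n) k ⧸
      (Ideal.span (Set.range (MvPolynomial.X : Fin n → MvPolynomial (Fin n) k))) ^ T) ∧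
    finrank k (MvPolynomial (Fin n) k ⧸
      (Ideal.span (Set.range (MvPolynomial.X : Fin n → MvPolynomial (Fin n) k))) ^ T) ≤ T ^ n := by
  classical
  set M := (Ideal.span (Set.range (MvPolynomial.X : Fin n → MvPolynomial (Fin n) k))) ^ T with hM
  let q : MvPolynomial (Fin n) k →ₗ[k] (MvPolynomial (Fin n) k ⧸ M) :=
    (Ideal.Quotient.mkₐ k M).toLinearMap
  let s : Set (MvPolynomial (Fin n) k ⧸ M) := Set.range fun α : Fin n → Fin T =>
    q (MvPolynomial.monomial (Finsupp.equivFunOnFinite.symm fun i => ((α i : Fin T) : ℕ)) 1)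
  have hspan : ⊤ ≤ Submodule.span k s := by
    rintro y -
    obtain ⟨a, rfl⟩ := Ideal.Quotient.mk_surjective y
    change q a ∈ Submodule.span k s
    rw [MvPolynomial.as_sum a, map_sum]
    refine Submodule.sum_mem _ fun α _ => ?_
    have h1 : MvPolynomial.monomial α (MvPolynomial.coeff α a) =
        MvPolynomial.coeff α a • MvPolynomial.monomial α (1 : k) := by
      rw [MvPolynomial.smul_monomial, smul_eq_mul, mul_one]
    rw [h1, map_smul]
    refine Submodule.smul_mem _ _ ?_
    by_cases hα : ∀ i, α i < T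
    · refine Submodule.subset_span ⟨fun i => ⟨α i, hα i⟩, ?_⟩
      have h2 : (Finsupp.equivFunOnFinite.symm fun i => α i) = α := by
        ext i
        rfl
      change q (MvPolynomial.monomial (Finsupp.equivFunOnFinite.symm fun i => α i) 1) = _
      rw [h2]
    · push Not at hα
      obtain ⟨i, hi⟩ := hα
      have h2 : q (MvPolynomial.monomial α (1 : k)) = 0 := by
        change Ideal.Quotient.mk M _ = 0
        rw [Ideal.Quotient.eq_zero_iff_mem, hM]
        have h3 : MvPolynomial.monomial α (1 : k) =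
            MvPolynomial.X i ^ T * MvPolynomial.monomial (α - Finsupp.single i T) 1 := by
          rw [MvPolynomial.X_pow_eq_monomial, MvPolynomial.monomial_mul, one_mul]
          congr 1
          rw [add_tsub_cancel_of_le]
          rw [Finsupp.single_le_iff]
          exact hi
        rw [h3]
        have hX : (MvPolynomial.X i : MvPolynomial (Fin n) k) ∈ Ideal.span
            (Set.range (MvPolynomial.X : Fin n → MvPolynomial (Fin n) k)) :=
          Ideal.subset_span ⟨i, rfl⟩
        exact Ideal.mul_mem_right _ _ (Ideal.pow_mem_pow hX T)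
      rw [h2]
      exact Submodule.zero_mem _
  have hfin : s.Finite := Set.finite_range _
  have hfd : FiniteDimensional k (MvPolynomial (Fin n) k ⧸ M) :=
    Module.finite_def.2 (Submodule.fg_def.2 ⟨s, hfin, top_le_iff.1 hspan⟩)
  refine ⟨hfd, ?_⟩
  have h3 := finrank_range_le_card (R := k) (fun α : Fin n → Fin T =>
    q (MvPolynomial.monomial (Finsupp.equivFunOnFinite.symm fun i => ((α i : Fin T) : ℕ)) 1))
  have h4 : finrank k (Submodule.span k s) ≤ Fintype.card (Fin n → Fin T) := h3
  rw [Fintype.card_fun, Fintype.card_fin, Fintype.card_fin, top_le_iff.1 hspan, finrank_top] at h4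
  exact h4

end Poly

end Pool.Agent.TG77
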