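import Pool.Agent.Lib.TG_h77.H1b
import Pool.Agent.Lib.TG91.Defs
import Pool.Agent.Lib.TG1.FFI
import Pool.Agent.Lib.TG1_h47.DFa
import Pool.Agent.Lib.TG_h55.Chart

/-!
# TANK G, row H1 of C42: local degrees at the points reached by the chain

`h1`: if all zeros of `(S', t)` are nice for `(w, t)` and `(x, t)`, the local degrees of
`K / k(t_i / x)` over the point `t_i / x = 0` are at most `max 1 (dg k x t - dg k w t)`.
-/

set_option autoImplicit false

namespace Pool.Agent.TG77

open Module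
open Pool.Agent.TG Pool.Agent.TG.Cnt
open Pool.Agent.LU2 (locV le_locV locV_mem locV_inv locV_mono)
open Pool.Agent.TGh33 (Wr DB jm)
open Pool.Agent.TG1 (Dat Adm kq dg crd tr ffi_x ffi_t kq_fin kq_sep algInd_crd)
open Pool.Agent.TG91 (Nc Reached)

universe u

section Iso

variable {k F F' : Type u} [Field k] [Field F] [Field F'] [Algebra k F] [Algebra k F'] {m : ℕ}

/-- The isomorphism of rational function fields. -/
theorem exists_iso {y : Fin m → F} {y' : Fin m → F'} (hy : AlgebraicIndependent k y)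
    (hy' : AlgebraicIndependent k y') (hgen : IntermediateField.adjoin k (Set.range y) = ⊤)
    (hgen' : IntermediateField.adjoin k (Set.range y') = ⊤) :
    ∃ e : F' ≃ₐ[k] F, ∀ i, e (y' i) = y i := by
  let g : IntermediateField.adjoin k (Set.range y) ≃ₐ[k] F :=
    (IntermediateField.equivOfEq hgen).trans IntermediateField.topEquiv
  let g' : IntermediateField.adjoin k (Set.range y') ≃ₐ[k] F' :=
    (IntermediateField.equivOfEq hgen').trans IntermediateField.topEquiv
  have hg : ∀ a : IntermediateField.adjoin k (Set.range y), g a = a := fun a => rfl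
  have hg' : ∀ a : IntermediateField.adjoin k (Set.range y'), g' a = a := fun a => rfl
  refine ⟨((g'.symm.trans hy'.aevalEquivField.symm).trans hy.aevalEquivField).trans g,
    fun i => ?_⟩
  have h1 : hy'.aevalEquivField.symm (g'.symm (y' i)) =
      algebraMap (MvPolynomial (Fin m) k) (FractionRing (MvPolynomial (Fin m) k))
        (MvPolynomial.X i) := by
    rw [AlgEquiv.symm_apply_eq, AlgEquiv.symm_apply_eq, hg',
      hy'.aevalEquivField_algebraMap_apply_coe, MvPolynomial.aeval_X]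
  change g (hy.aevalEquivField (hy'.aevalEquivField.symm (g'.symm (y' i)))) = y i
  rw [h1, hg, hy.aevalEquivField_algebraMap_apply_coe, MvPolynomial.aeval_X]

/-- Transport of a point. -/
theorem exists_transport {y : Fin m → F} {y' : Fin m → F'} (hy : AlgebraicIndependent k y)
    (hy' : AlgebraicIndependent k y') (hgen : IntermediateField.adjoin k (Set.range y) = ⊤)
    (hgen' : IntermediateField.adjoin k (Set.range y') = ⊤) {v : ValuationSubring F}
    (hv : ZDim k v) (hy1 : ∀ i, v.valuation (y i) < 1) :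
    ∃ v' : ValuationSubring F', ZDim k v' ∧ ∀ i, v'.valuation (y' i) < 1 := by
  obtain ⟨e, he⟩ := exists_iso hy hy' hgen hgen'
  let _ : Algebra F' F := (e : F' →+* F).toAlgebra
  have hval : ∀ a : F', (v.comap (algebraMap F' F)).valuation a < 1 ↔ v.valuation (e a) < 1 :=
    fun a => comap_lt_one v a
  refine ⟨v.comap (algebraMap F' F), ⟨fun c => ?_, fun a ha => ?_⟩, fun i => ?_⟩
  · change e (algebraMap k F' c) ∈ v
    rw [e.commutes]
    exact hv.ov c
  · obtain ⟨c, hc⟩ := hv.res (e a) ha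
    refine ⟨c, (hval _).2 ?_⟩
    rw [map_sub, e.commutes]
    exact hc
  · rw [hval, he]
    exact hy1 i

end Iso

section H1

variable {k K : Type u} [Field k] [Field K] [Algebra k K] {n : ℕ}
  {D : Fin (n + 1) → Derivation k K K} {z : Fin (n + 1) → K} {A : Subalgebra k K}

/-- The affine coordinates `t_i / x` in the field `k(t / x)`. -/
def qy (k : Type u) {K : Type u} [Field k] [Field K] [Algebra k K] {n : ℕ} (x : K)
    (t : Fin (n + 1) → K) (i : Fin (n + 1)) : kq k x t :=
  ⟨t i / x, IntermediateField.subset_adjoin _ _ ⟨i, rfl⟩⟩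

theorem adjoin_qy (x : K) (t : Fin (n + 1) → K) :
    IntermediateField.adjoin k (Set.range (qy k x t)) = ⊤ := by
  have h1 : (IntermediateField.adjoin k (Set.range (qy k x t))).map (kq k x t).val =
      kq k x t := by
    rw [IntermediateField.adjoin_map, ← Set.range_comp]
    rfl
  apply IntermediateField.map_injective (kq k x t).val
  rw [h1, ← AlgHom.fieldRange_eq_map]
  exact (IntermediateField.fieldRange_val _).symm

theorem ind_qy (dat : Dat D z A) {x : K} {t : Fin (n + 1) → K}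
    (hW : Wr D (Fin.cons x t) ≠ 0) : AlgebraicIndependent k (qy k x t) := by
  have h1 := algInd_crd dat hW
  exact AlgebraicIndependent.of_comp (kq k x t).val h1

theorem kq_fg (x : K) (t : Fin (n + 1) → K) : (⊤ : IntermediateField k (kq k x t)).FG := by
  rw [← adjoin_qy x t]
  exact IntermediateField.fg_adjoin_of_finite (Set.finite_range _)

theorem not_isMin {V : ValuationSubring K} {S' : Submodule k K} {w : K} {t : Fin (n + 1) → K}
    (hw : w ∈ S') (hw0 : w ≠ 0) (ht0 : ∀ i, t i ≠ 0) (h : ∀ i, V.valuation (t i / w) < 1)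
    (j : Fin (n + 1)) : ¬ IsMin V S' (t j) := by
  intro hm
  have h1 := (V.valuation_le_one_iff _).2 (hm.div w hw)
  have h2 : V.valuation (t j / w) * V.valuation (w / t j) = 1 := by
    rw [← map_mul, div_mul_div_cancel₀ hw0, div_self (ht0 j), map_one]
  have h3 := h j
  rw [← h2] at h3
  exact absurd h3 (not_lt.2 (mul_le_of_le_one_right' h1))

theorem val_det {V : ValuationSubring K} {x : K} {t : Fin (n + 1) → K}
    (hx : V.valuation x = 1) (hW : V.valuation (Wr D (Fin.cons x t)) = 1) :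
    V.valuation (jm D (crd x t)).det = 1 := by
  have h0 : (Fin.cons x t : Fin (n + 2) → K) 0 ≠ 0 := ne_zero_of_val_eq_one hx
  have h1 := Pool.Agent.TGh33.jm_det_eq D (Fin.cons x t : Fin (n + 2) → K) h0
  have h2 : (jm D (crd x t)).det = Wr D (Fin.cons x t) / x ^ (n + 2) := h1
  rw [h2, map_div₀, hW, map_pow, hx, one_pow, div_one]

/-- The package at a nice zero. -/
theorem nice_zero {p : ℕ} [hp : Fact p.Prime] [CharP k p] [IsAlgClosed k] (dat : Dat D z A)
    {V : ValuationSubring K} (hV : ZDim k V) (hA : ∀ a ∈ A, a ∈ V) {x : K} (hxA : x ∈ A)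
    {t : Fin (n + 1) → K} (htA : ∀ j, t j ∈ A) (hx : V.valuation x = 1)
    (hW : V.valuation (Wr D (Fin.cons x t)) = 1) (hlt : ∀ i, V.valuation (t i / x) < 1) :
    NV V (Pm k (crd x t)) = locV V A ∧
    ∀ a ∈ locV V A, ∃ (c : k) (b : Fin (n + 1) → K), (∀ i, b i ∈ locV V A) ∧
      a = algebraMap k K c + ∑ i, t i / x * b i := by
  have hcK : CharP K p := charP_of_injective_algebraMap (algebraMap k K).injective p
  have htr : Algebra.trdeg k K = ((n + 1 : ℕ) : Cardinal) := by
    rw [dat.trd]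
    push_cast
    rfl
  have hx0 : x ≠ 0 := ne_zero_of_val_eq_one hx
  have hdet := val_det (D := D) hx hW
  have hl : ∀ i, x * crd x t i ∈ A := fun i => by
    change x * (t i / x) ∈ A
    rw [mul_div_cancel₀ _ hx0]
    exact htA i
  have hll : ∀ i, crd x t i ∈ locV V A := fun i => by
    refine ⟨t i, htA i, x, hxA, hx, rfl⟩
  refine ⟨NV_eq_locV dat.fgK htr dat.db hV dat.fg hA dat.stab dat.clos hxA hx hl hlt hdet
    (isMin_Pm hV.ov fun i => (V.valuation_le_one_iff _).1 (hlt i).le) (ch_Pm _), ?_⟩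
  intro a ha
  obtain ⟨c, hc⟩ := hV.res a (locV_mem hA a ha)
  have h1 : a - algebraMap k K c ∈ locV V A :=
    (locV V A).sub_mem ha ((locV V A).algebraMap_mem c)
  obtain ⟨b, hb, hab⟩ := max_gen dat.fgK htr dat.db hV dat.fg hA dat.stab dat.clos hll hlt hdet
    h1 hc
  exact ⟨c, b, hb, by
    rw [← sub_eq_iff_eq_add']
    exact hab⟩

/-- **H1.** -/
theorem h1 {p : ℕ} [hp : Fact p.Prime] [CharP k p] [IsAlgClosed k] (dat : Dat D z A)
    {S' : Submodule k K} (hSA : ∀ a ∈ S', a ∈ A) {x w : K} {t : Fin (n + 1) → K} (hx : x ∈ A)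
    (hWx : Wr D (Fin.cons x t) ≠ 0) (ht : ∀ j, t j ∈ S') (hw : w ∈ S')
    (hWw : Wr D (Fin.cons w t) ≠ 0) (hcw : Nc D A S' w t)
    (hcx : ∀ V : ValuationSubring K, Ov k V → (∀ j, ¬ IsMin V S' (t j)) →
      V.valuation x = 1 ∧ V.valuation (Wr D (Fin.cons x t)) = 1)
    (v₀ : ValuationSubring (kq k x t)) (hv : ZDim k v₀)
    (hv1 : ∀ i, v₀.valuation (qy k x t i) < 1) :
    LDeg K v₀ (RV v₀ (Pm k (qy k x t))) (max 1 (dg k x t - dg k w t)) := by
  classical
  have hfx := kq_fin dat hWx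
  have hsw := kq_sep dat hWw
  have hfw := kq_fin dat hWw
  have hw0 := ffi_x hWw
  have hx0 := ffi_x hWx
  have ht0 := ffi_t hWw
  have htA : ∀ j, t j ∈ A := fun j => hSA _ (ht j)
  have hindx := ind_qy dat hWx
  have hindw := ind_qy dat hWw
  -- a point of `F_w`
  obtain ⟨vw, hvw, hvw1⟩ := exists_transport hindx hindw (adjoin_qy x t) (adjoin_qy w t) hv hv1
  -- all zeros
  have hzero : ∀ V : ValuationSubring K, ZDim k V → (∀ i, V.valuation (t i / w) < 1) →
      (∀ a ∈ A, a ∈ V) ∧ V.valuation w = 1 ∧ V.valuation x = 1 ∧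
      V.valuation (Wr D (Fin.cons w t)) = 1 ∧ V.valuation (Wr D (Fin.cons x t)) = 1 ∧
      ∀ i, V.valuation (t i / x) < 1 := by
    intro V hV h
    have hz := not_isMin (k := k) hw hw0 ht0 h
    obtain ⟨h1, h2, h3⟩ := hcw V hV.ov hz
    obtain ⟨h4, h5⟩ := hcx V hV.ov hz
    refine ⟨h1, h2, h4, h3, h5, fun i => ?_⟩
    have h6 := h i
    rw [map_div₀, h2, div_one] at h6
    rw [map_div₀, h4, div_one]
    exact h6
  have halgw : Algebra.IsAlgebraic (kq k w t) K := Algebra.IsAlgebraic.of_finite _ _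
  have hover : ∀ V : ValuationSubring K, V.comap (algebraMap (kq k w t) K) = vw →
      ZDim k V ∧ ∀ i, V.valuation (t i / w) < 1 := by
    intro V hV
    refine ⟨zdim_up (F := kq k w t) (hV.symm ▸ hvw), fun i => ?_⟩
    have h1 := hvw1 i
    rw [← hV, comap_lt_one] at h1
    exact h1
  have hPw : upm K (Pm k (qy k w t)) = Pm k (crd w t) := upm_Pm _
  have hPx : upm K (Pm k (qy k x t)) = Pm k (crd x t) := upm_Pm _
  -- finiteness of the models
  have hfin : ∀ a : K, Fin' (Pm k (qy k a t)) := by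
    intro a
    have h1 : (IntermediateField.adjoin k {x : kq k a t | ∃ f ∈ Pm k (qy k a t),
        ∃ g ∈ Pm k (qy k a t), x = g / f}) = ⊤ := by
      rw [eq_top_iff, ← adjoin_qy a t, IntermediateField.adjoin_le_iff]
      rintro _ ⟨i, rfl⟩
      exact IntermediateField.subset_adjoin _ _ ⟨1, one_mem_Pm _, _, mem_Pm _ i, (div_one _).symm⟩
    unfold Fin'
    rw [h1]
    exact ⟨fun x => isAlgebraic_algebraMap (⟨x, trivial⟩ : (⊤ : IntermediateField k (kq k a t)))⟩
  have hfrac : ∀ V : ValuationSubring K, ∀ x : K, ∃ a ∈ locV V A, ∃ b ∈ locV V A,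
      b ≠ 0 ∧ x = a / b := by
    intro V x
    obtain ⟨a, ha, b, hb, hb0, hab⟩ := dat.frac x
    exact ⟨a, le_locV _ ha, b, le_locV _ hb, hb0, hab⟩
  -- the fibre of `K / F_w`
  obtain ⟨S, hScard, hSv, hSinj⟩ := exists_count (kq_fg w t) hvw (Pm_model (qy k w t)) (hfin w) (by
    intro V hV
    obtain ⟨hVz, hVlt⟩ := hover V hV
    obtain ⟨h1, h2, -, h4, -, -⟩ := hzero V hVz hVlt
    obtain ⟨h6, h7⟩ := nice_zero dat hVz h1 (hSA w hw) htA h2 h4 hVlt
    refine lenAt_one (locV V A) (by rw [hPw, h6]) (hfrac V) (qy k w t)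
      (fun i => ⟨t i, htA i, w, hSA w hw, h2, rfl⟩) hVlt h7)
  have hloc : ∀ V ∈ S, NV V (upm K (Pm k (qy k w t))) = locV V A ∧
      NV V (upm K (Pm k (qy k x t))) = locV V A := by
    intro V hV
    obtain ⟨hVz, hVlt⟩ := hover V (hSv V hV)
    obtain ⟨h1, h2, h3, h4, h5, h6⟩ := hzero V hVz hVlt
    rw [hPw, hPx]
    exact ⟨(nice_zero dat hVz h1 (hSA w hw) htA h2 h4 hVlt).1,
      (nice_zero dat hVz h1 hx htA h3 h5 h6).1⟩
  have hcard : S.card = dg k w t := hScard
  have hint : ∀ b : kq k x t, IsIntegral (Algebra.adjoin k (Set.range (qy k x t))) b →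
      b ∈ Algebra.adjoin k (Set.range (qy k x t)) :=
    Pool.Agent.TG55.mem_adjoin_of_isIntegral _ hindx (adjoin_qy x t)
  have hmain := ldeg_sub (K := K) (kq_fg x t) hv (Pm_model (qy k x t)) (hfin x) S (by
    intro V hV
    obtain ⟨hVz, hVlt⟩ := hover V (hSv V hV)
    obtain ⟨-, -, -, -, -, h6⟩ := hzero V hVz hVlt
    refine ⟨hVz.ov, NV_Pm_congr (ov_comap hVz.ov) hv.ov hint (fun i => ?_) hv1⟩
    rw [comap_lt_one]
    exact h6 i) (by
    intro V hV V' hV' h
    refine hSinj V hV V' hV' ?_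
    rw [(hloc V hV).1, (hloc V' hV').1, ← (hloc V hV).2, ← (hloc V' hV').2]
    exact h) (by
    rintro V hV ⟨V', hV', hVV⟩
    obtain ⟨hVz', hVlt'⟩ := hover V' (hSv V' hV')
    obtain ⟨h1, h2, h3, h4, h5, h6⟩ := hzero V' hVz' hVlt'
    have h7 := (nice_zero dat hVz' h1 hx htA h3 h5 h6).2
    refine lenAt_one (locV V' A) (by rw [hVV, (hloc V' hV').2]) (hfrac V') (qy k x t)
      (fun i => ⟨t i, htA i, x, hx, h3, rfl⟩) (fun i => ?_) h7
    have h8 := hv1 i
    rw [← hV, comap_lt_one] at h8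
    exact h8)
  rw [hcard] at hmain
  exact hmain

end H1

end Pool.Agent.TG77
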