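import Pool.Agent.Lib.TG_h77.Hom
import Pool.Agent.Lib.TG_h77.LDeg

/-!
# TANK G, row H1: the bound `finrank F K - r` for the local degrees (abstract form)

* `exists_emb'`: the centre of a valuation ring `V` of `K` which dominates the local ring of a
  model is the centre of an embedding `j : K → N`;
* `ldeg_sub`: if there are `r` unramified points over the centre of `v₀`, the local degrees are at
  most `max 1 ([K : F] - r)`;
* `exists_count`: if all points over `v₀` are unramified, there are `[K : F]` of them.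
-/

set_option autoImplicit false

namespace Pool.Agent.TG77

open Module
open Pool.Agent.TG Pool.Agent.TG.Cnt
open Pool.Agent.LU2 (locV le_locV locV_mem locV_inv locV_mono)

universe u

section Cen

variable {k F : Type u} [Field k] [Field F] [Algebra k F]

theorem NV_inv' {v : ValuationSubring F} {P : Submodule k F} {a : F} (ha : a ∈ NV v P)
    (h1 : v.valuation a = 1) : a⁻¹ ∈ NV v P := locV_inv ha h1

theorem NV_le' {v : ValuationSubring F} (hv : Ov k v) {P : Submodule k F} (hP : IsModel P)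
    {a : F} (ha : a ∈ NV v P) : a ∈ v := NV_le hv hP a ha

/-- Valuation rings with the same local ring of the normalisation have the same centre. -/
theorem lt_iff_of_NV {v v₁ : ValuationSubring F} (hv : Ov k v) (hv₁ : Ov k v₁)
    {P : Submodule k F} (hP : IsModel P) (h : NV v₁ P = NV v P) {a : F} (ha : a ∈ NV v P) :
    v₁.valuation a < 1 ↔ v.valuation a < 1 := by
  have key : ∀ {w w' : ValuationSubring F}, Ov k w → Ov k w' → NV w P = NV w' P → a ∈ NV w P →
      w.valuation a < 1 → w'.valuation a < 1 := by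
    intro w w' hw hw' hww ha' h1
    by_contra h2
    have h3 : w'.valuation a = 1 :=
      le_antisymm ((w'.valuation_le_one_iff _).2 (NV_le' hw' hP (hww ▸ ha'))) (not_lt.1 h2)
    have h4 : a⁻¹ ∈ NV w P := by
      rw [hww]
      exact NV_inv' (hww ▸ ha') h3
    have h5 := (w.valuation_le_one_iff _).2 (NV_le' hw hP h4)
    have ha0 : a ≠ 0 := ne_zero_of_val_eq_one h3
    rw [map_inv₀] at h5
    have h6 : w.valuation a ≠ 0 := (Valuation.ne_zero_iff _).2 ha0
    exact absurd h5 (not_le.2 ((one_lt_inv₀ (zero_lt_iff.2 h6)).2 h1))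
  exact ⟨key hv₁ hv h (h ▸ ha), key hv hv₁ h.symm ha⟩

theorem eq_one_iff_of_NV {v v₁ : ValuationSubring F} (hv : Ov k v) (hv₁ : Ov k v₁)
    {P : Submodule k F} (hP : IsModel P) (h : NV v₁ P = NV v P) {a : F} (ha : a ∈ NV v P) :
    v₁.valuation a = 1 ↔ v.valuation a = 1 := by
  have h1 := lt_iff_of_NV hv hv₁ hP h ha
  have h2 : v.valuation a ≤ 1 := (v.valuation_le_one_iff _).2 (NV_le' hv hP ha)
  have h3 : v₁.valuation a ≤ 1 := (v₁.valuation_le_one_iff _).2 (NV_le' hv₁ hP (h.symm ▸ ha))
  rw [eq_iff_le_not_lt, eq_iff_le_not_lt, h1]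
  exact ⟨fun h4 => ⟨h2, h4.2⟩, fun h4 => ⟨h3, h4.2⟩⟩

/-- They have the same local ring of the model. -/
theorem RV_eq_of_NV {v v₁ : ValuationSubring F} (hv : Ov k v) (hv₁ : Ov k v₁)
    {P : Submodule k F} (hP : IsModel P) (h : NV v₁ P = NV v P) : RV v₁ P = RV v P := by
  obtain ⟨f, hf⟩ := exists_isMin hv hP
  have hle : ch P f ≤ NV v P := by
    rw [NV_eq hf]
    exact (le_ncl _).trans (le_locV _)
  have hf₁ : IsMin v₁ P f := ⟨hf.mem, hf.ne, fun g hg => NV_le' hv₁ hP (by
    rw [h]
    exact hle (div_mem_ch hg))⟩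
  rw [RV_eq hf, RV_eq hf₁]
  apply le_antisymm
  · rintro _ ⟨a, ha, b, hb, hvb, rfl⟩
    exact ⟨a, ha, b, hb, (eq_one_iff_of_NV hv hv₁ hP h (hle hb)).1 hvb, rfl⟩
  · rintro _ ⟨a, ha, b, hb, hvb, rfl⟩
    exact ⟨a, ha, b, hb, (eq_one_iff_of_NV hv hv₁ hP h (hle hb)).2 hvb, rfl⟩

end Cen

section Emb

variable {k F K N : Type u} [Field k] [Field F] [Field K] [Field N] [Algebra k F] [Algebra k K]
  [Algebra k N] [Algebra F K] [Algebra F N] [IsScalarTower k F K] [IsScalarTower k F N]
  [FiniteDimensional F N] [IsGalois F N]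

/-- Every centre of `K` over the centre of `W` comes from an embedding. -/
theorem exists_emb' (j₀ : K →ₐ[F] N) (V : ValuationSubring K) (W : ValuationSubring N)
    (R : Subalgebra k F) (hR : ∀ a ∈ up (k := k) N R, a ∈ W)
    (hRV : ∀ a ∈ R, algebraMap F K a ∈ V)
    (hVW : ∀ a ∈ ncl (up (k := k) F R),
      V.valuation (algebraMap F K a) < 1 ↔ W.valuation (algebraMap F N a) < 1) :
    ∃ j : K →ₐ[F] N, ∀ a ∈ ncl (up (k := k) K R), V.valuation a < 1 ↔ W.valuation (j a) < 1 := by
  let _ : Algebra K N := j₀.toRingHom.toAlgebra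
  have h1 : IsScalarTower F K N := IsScalarTower.of_algebraMap_eq fun x => (j₀.commutes x).symm
  have hkKN : IsScalarTower k K N := IsScalarTower.of_algebraMap_eq fun c => by
    rw [IsScalarTower.algebraMap_apply k F N, IsScalarTower.algebraMap_apply k F K,
      ← IsScalarTower.algebraMap_apply F K N]
  obtain ⟨W', hW'⟩ := exists_comap_eq (N := N) V
  have hval : ∀ x : K, V.valuation x < 1 ↔ W'.valuation (algebraMap K N x) < 1 := fun x => by
    rw [← comap_lt_one, hW']
  have hR' : ∀ a ∈ up (k := k) N R, a ∈ W' := by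
    rintro _ ⟨a, ha, rfl⟩
    have h2 : algebraMap F K a ∈ W'.comap (algebraMap K N) := by
      rw [hW']
      exact hRV a ha
    have h3 : algebraMap K N (algebraMap F K a) ∈ W' := h2
    rw [← IsScalarTower.algebraMap_apply] at h3
    exact h3
  obtain ⟨ρ, _, hρ⟩ := exists_conj_cen (E := F) W' W R hR' hR (by
    intro a ha
    rw [← hVW a ha, hval, ← IsScalarTower.algebraMap_apply])
  refine ⟨(ρ : N →ₐ[F] N).comp j₀, fun a ha => ?_⟩
  rw [hval]
  exact hρ _ ((ncl_up_iff (L := K) (N := N) a).1 ha)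

end Emb

section Sub

variable {k F K : Type u} [Field k] [Field F] [Field K] [Algebra k F] [Algebra k K]
  [Algebra F K] [IsScalarTower k F K]

theorem ov_comap {V : ValuationSubring K} (hV : Ov k V) : Ov k (V.comap (algebraMap F K)) :=
  fun c => by
    change algebraMap F K (algebraMap k F c) ∈ V
    rw [← IsScalarTower.algebraMap_apply]
    exact hV c

/-- Same centre on the integral closure, same local ring. -/
theorem NV_eq_of_cen {V V' : ValuationSubring K} (hV : Ov k V) (hV' : Ov k V')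
    {P : Submodule k F} (hP : IsModel P) {R : Subalgebra k F}
    (h1 : RV (V.comap (algebraMap F K)) P = R) (h2 : RV (V'.comap (algebraMap F K)) P = R)
    (hc : ∀ a ∈ ncl (up (k := k) K R), V.valuation a < 1 ↔ V'.valuation a < 1) :
    NV V (upm K P) = NV V' (upm K P) := by
  have hR : ∀ a ∈ up (k := k) K R, a ∈ V := by
    intro a ha
    rw [← h1, ← RV_upm V hV hP] at ha
    exact RV_le hV hP.upm a ha
  have hR' : ∀ a ∈ up (k := k) K R, a ∈ V' := by
    intro a ha
    rw [← h2, ← RV_upm V' hV' hP] at ha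
    exact RV_le hV' hP.upm a ha
  have h3 : ∀ a ∈ ncl (up (k := k) K R), V.valuation a = 1 ↔ V'.valuation a = 1 := by
    intro a ha
    have h4 := hc a ha
    have h5 : V.valuation a ≤ 1 := (V.valuation_le_one_iff _).2 (ncl_mem hR a ha)
    have h6 : V'.valuation a ≤ 1 := (V'.valuation_le_one_iff _).2 (ncl_mem hR' a ha)
    rw [eq_iff_le_not_lt, eq_iff_le_not_lt, h4]
    exact ⟨fun h => ⟨h6, h.2⟩, fun h => ⟨h5, h.2⟩⟩
  rw [NV_upm V hV hP, NV_upm V' hV' hP, h1, h2]
  apply le_antisymm
  · rintro _ ⟨a, ha, b, hb, hvb, rfl⟩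
    exact ⟨a, ha, b, hb, (h3 b hb).1 hvb, rfl⟩
  · rintro _ ⟨a, ha, b, hb, hvb, rfl⟩
    exact ⟨a, ha, b, hb, (h3 b hb).2 hvb, rfl⟩

/-- **H1, abstract form.** -/
theorem ldeg_sub [IsAlgClosed k] [FiniteDimensional F K] (hF : (⊤ : IntermediateField k F).FG)
    {v₀ : ValuationSubring F} (hv : ZDim k v₀) {P : Submodule k F} (hP : IsModel P)
    (hPf : Fin' P) (S : Finset (ValuationSubring K))
    (hS : ∀ V ∈ S, Ov k V ∧ NV (V.comap (algebraMap F K)) P = NV v₀ P)
    (hinj : ∀ V ∈ S, ∀ V' ∈ S, NV V (upm K P) = NV V' (upm K P) → V = V')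
    (hlen : ∀ V : ValuationSubring K, V.comap (algebraMap F K) = v₀ →
      (∃ V' ∈ S, NV V (upm K P) = NV V' (upm K P)) → LenAt V P 1) :
    LDeg K v₀ (RV v₀ P) (max 1 (finrank F K - S.card)) := by
  classical
  intro N _ _ _ _ _ _ j₀ W hW
  have hzN : ZDim k W := zdim_up (F := F) (hW.symm ▸ hv)
  set R := RV v₀ P with hR
  have hRW : ∀ a ∈ up (k := k) N R, a ∈ W := by
    rintro _ ⟨a, ha, rfl⟩
    have h2 : a ∈ W.comap (algebraMap F N) := by
      rw [hW]
      exact RV_le hv.ov hP a ha
    exact h2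
  have hncl : ncl (up (k := k) F R) ≤ NV v₀ P := by
    have h1 : NV v₀ P = locV v₀ (ncl (RV v₀ P)) := rfl
    rw [h1]
    have h2 : up (k := k) F R = R := by
      ext a
      constructor
      · rintro ⟨b, hb, rfl⟩
        exact hb
      · exact fun h => ⟨a, h, rfl⟩
    rw [h2]
    exact le_locV _
  -- an embedding for every `V`
  have hemb : ∀ V ∈ S, ∃ j : K →ₐ[F] N, (∀ a ∈ ncl (up (k := k) K R),
      V.valuation a < 1 ↔ W.valuation (j a) < 1) ∧ ∀ σ ∈ stab W R, ∀ x, σ (j x) = j x := by
    intro V hV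
    obtain ⟨hVo, hVN⟩ := hS V hV
    have hVR := RV_eq_of_NV hv.ov (ov_comap (F := F) hVo) hP hVN
    obtain ⟨j, hj⟩ := exists_emb' (k := k) j₀ V W R hRW (by
      intro a ha
      rw [hR, ← hVR] at ha
      exact RV_le (ov_comap (F := F) hVo) hP a ha) (by
      intro a ha
      rw [← comap_lt_one, ← comap_lt_one, hW]
      exact lt_iff_of_NV hv.ov (ov_comap (F := F) hVo) hP hVN (hncl ha))
    refine ⟨j, hj, ?_⟩
    let V₁ : ValuationSubring K := W.comap (j : K →+* N)
    have hV₁v : V₁.comap (algebraMap F K) = v₀ := by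
      rw [← hW]
      ext x
      change j (algebraMap F K x) ∈ W ↔ algebraMap F N x ∈ W
      rw [j.commutes]
    have hV₁o : Ov k V₁ := fun c => by
      change j (algebraMap k K c) ∈ W
      rw [IsScalarTower.algebraMap_apply k F K, j.commutes, ← IsScalarTower.algebraMap_apply]
      exact hzN.ov c
    have hval : ∀ x : K, V₁.valuation x < 1 ↔ W.valuation (j x) < 1 := by
      intro x
      let _ : Algebra K N := j.toRingHom.toAlgebra
      exact comap_lt_one W x
    have hlen₁ : LenAt V₁ P 1 := by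
      refine hlen V₁ hV₁v ⟨V, hV, ?_⟩
      refine NV_eq_of_cen (R := R) hV₁o hVo hP (by rw [hV₁v]) hVR fun a ha => ?_
      rw [hval, hj a ha]
    have h2 := relIndex_of_lenAt hF hP hPf j W (hW.symm ▸ hv) hlen₁
    rw [hW, ← hR] at h2
    have h3 : j.fieldRange.fixingSubgroup.relIndex (stab W R) = 1 :=
      le_antisymm h2 (Nat.one_le_iff_ne_zero.2 (relIndex_ne_zero_of_finite _ _))
    rw [Subgroup.relIndex_eq_one] at h3
    intro σ hσ x
    exact (IntermediateField.mem_fixingSubgroup_iff _ _).1 (h3 hσ) _ ⟨x, rfl⟩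
  have hne : Nonempty (K →ₐ[F] N) := ⟨j₀⟩
  choose! e he hfix using hemb
  have hcard : (S.image e).card = S.card := by
    apply Finset.card_image_of_injOn
    intro V hV V' hV' hVV
    refine hinj V hV V' hV' ?_
    obtain ⟨hVo, hVN⟩ := hS V hV
    obtain ⟨hVo', hVN'⟩ := hS V' hV'
    refine NV_eq_of_cen (R := R) hVo hVo' hP
      (RV_eq_of_NV hv.ov (ov_comap (F := F) hVo) hP hVN)
      (RV_eq_of_NV hv.ov (ov_comap (F := F) hVo') hP hVN') fun a ha => ?_
    rw [he V hV a ha, he V' hV' a ha, hVV]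
  have h4 := relIndex_le_sub (stab W R) j₀ (S.image e) (by
    intro i hi σ hσ x
    obtain ⟨V, hV, rfl⟩ := Finset.mem_image.1 hi
    exact hfix V hV σ hσ x)
  rw [hcard] at h4
  exact h4

/-- **The number of the points in the fibre**, if all points are unramified. -/
theorem exists_count [IsAlgClosed k] [FiniteDimensional F K] [Algebra.IsSeparable F K]
    (hF : (⊤ : IntermediateField k F).FG)
    {v₀ : ValuationSubring F} (hv : ZDim k v₀) {P : Submodule k F} (hP : IsModel P)
    (hPf : Fin' P)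
    (hlen : ∀ V : ValuationSubring K, V.comap (algebraMap F K) = v₀ → LenAt V P 1) :
    ∃ S : Finset (ValuationSubring K), S.card = finrank F K ∧
      (∀ V ∈ S, V.comap (algebraMap F K) = v₀) ∧
      ∀ V ∈ S, ∀ V' ∈ S, NV V (upm K P) = NV V' (upm K P) → V = V' := by
  classical
  let Ω : Type u := SeparableClosure F
  let i : K →ₐ[F] Ω := IsSepClosed.lift
  let E : IntermediateField F Ω := i.fieldRange
  have : FiniteDimensional F E := (AlgEquiv.ofInjectiveField i).toLinearEquiv.finiteDimensional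
  let N : IntermediateField F Ω := IntermediateField.normalClosure F E Ω
  have : IsGalois F N := IsGalois.normalClosure F E Ω
  have : FiniteDimensional F N := normalClosure.is_finiteDimensional F E Ω
  have hEN : E ≤ N := IntermediateField.le_normalClosure E
  let iN : K →ₐ[F] N := i.codRestrict N.toSubalgebra fun x => hEN ⟨x, rfl⟩
  let _ : Algebra k N := ((algebraMap F N).comp (algebraMap k F)).toAlgebra
  have : IsScalarTower k F N := IsScalarTower.of_algebraMap_eq fun _ => rfl
  have hsplit : ∀ x : K, ((minpoly F x).map (algebraMap F N)).Splits := by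
    intro x
    have h1 : minpoly F x = minpoly F (iN x) := (minpoly.algHom_eq iN iN.injective x).symm
    rw [h1]
    exact Normal.splits inferInstance (iN x)
  have hcard : Nat.card (K →ₐ[F] N) = finrank F K := by
    exact AlgHom.natCard_of_splits F K N hsplit
  have hfin : Finite (K →ₐ[F] N) := inferInstance
  let _ : Fintype (K →ₐ[F] N) := Fintype.ofFinite _
  obtain ⟨W, hW⟩ := exists_comap_eq (N := N) v₀
  have hzN : ZDim k W := zdim_up (F := F) (hW.symm ▸ hv)
  set R := RV v₀ P with hR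
  have hRW : ∀ a ∈ up (k := k) N R, a ∈ W := by
    rintro _ ⟨a, ha, rfl⟩
    have h2 : a ∈ W.comap (algebraMap F N) := by
      rw [hW]
      exact RV_le hv.ov hP a ha
    exact h2
  let f : (K →ₐ[F] N) → ValuationSubring K := fun j => W.comap (j : K →+* N)
  have hfv : ∀ j, (f j).comap (algebraMap F K) = v₀ := by
    intro j
    rw [← hW]
    ext x
    change j (algebraMap F K x) ∈ W ↔ algebraMap F N x ∈ W
    rw [j.commutes]
  have hfo : ∀ j, Ov k (f j) := fun j c => by
    change j (algebraMap k K c) ∈ W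
    rw [IsScalarTower.algebraMap_apply k F K, j.commutes, ← IsScalarTower.algebraMap_apply]
    exact hzN.ov c
  have hval : ∀ j, ∀ x : K, (f j).valuation x < 1 ↔ W.valuation (j x) < 1 := by
    intro j x
    let _ : Algebra K N := j.toRingHom.toAlgebra
    exact comap_lt_one W x
  have hinj : ∀ j j', NV (f j) (upm K P) = NV (f j') (upm K P) → j = j' := by
    intro j j' hjj
    have h1 : ∀ a ∈ ncl (up (k := k) K R), W.valuation (j a) < 1 ↔ W.valuation (j' a) < 1 := by
      intro a ha
      rw [← hval, ← hval]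
      refine lt_iff_of_NV (hfo j') (hfo j) hP.upm hjj ?_
      rw [NV_upm (f j') (hfo j') hP, hfv]
      exact le_locV _ ha
    obtain ⟨σ, hσ, hσj⟩ := exists_stab j j' W R hRW h1
    have h2 := relIndex_of_lenAt hF hP hPf j W (hW.symm ▸ hv) (hlen (f j) (hfv j))
    rw [hW, ← hR] at h2
    have h3 : j.fieldRange.fixingSubgroup.relIndex (stab W R) = 1 :=
      le_antisymm h2 (Nat.one_le_iff_ne_zero.2 (relIndex_ne_zero_of_finite _ _))
    rw [Subgroup.relIndex_eq_one] at h3
    refine AlgHom.ext fun x => ?_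
    rw [← hσj x]
    exact ((IntermediateField.mem_fixingSubgroup_iff _ _).1 (h3 hσ) _ ⟨x, rfl⟩).symm
  refine ⟨Finset.univ.image f, ?_, ?_, ?_⟩
  · rw [Finset.card_image_of_injective, Finset.card_univ, ← Nat.card_eq_fintype_card, hcard]
    intro j j' hjj
    exact hinj j j' (by rw [hjj])
  · intro V hV
    obtain ⟨j, -, rfl⟩ := Finset.mem_image.1 hV
    exact hfv j
  · intro V hV V' hV' h
    obtain ⟨j, -, rfl⟩ := Finset.mem_image.1 hV
    obtain ⟨j', -, rfl⟩ := Finset.mem_image.1 hV'
    rw [hinj j j' h]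

end Sub

end Pool.Agent.TG77
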