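import Pool.Agent.Lib.TG_h77.Poly
import Pool.Agent.Lib.TG_h43.PBase
import Pool.Agent.Lib.TGL_h28.PExpDual
import Pool.Agent.Lib.TG_h33.W2
import Pool.Agent.Lib.TGBC_h95.Point

/-!
# TANK G, row H1: etale points

`A` is a finitely generated integrally closed algebra stable under a basis `D` of the derivations,
`V ⊇ A` zero-dimensional, `l` elements of the local ring `locV V A` of positive value whose
Jacobian is a unit: `l` generates the maximal ideal (characteristic `p`).
-/

set_option autoImplicit false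

namespace Pool.Agent.TG77

open Module
open Pool.Agent.TG Pool.Agent.TG.Cnt
open Pool.Agent.LU2 (locV le_locV locV_mem locV_inv locV_mono)
open Pool.Agent.TGh33 (DB jm dualD dualD_u dualD_mem)

universe u

section Pt

variable {k K : Type u} [Field k] [Field K] [Algebra k K] {V : ValuationSubring K}
  {A : Subalgebra k K} {m : ℕ} {D : Fin m → Derivation k K K} {z : Fin m → K}

/-- The localisation of a stable ring is stable. -/
theorem der_locV (δ : Derivation k K K) (hst : ∀ a ∈ A, δ a ∈ A) {x : K} (hx : x ∈ locV V A) :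
    δ x ∈ locV V A := by
  obtain ⟨a, ha, b, hb, hvb, rfl⟩ := hx
  have hb0 : b ≠ 0 := ne_zero_of_val_eq_one hvb
  refine ⟨b * δ a - a * δ b, A.sub_mem (A.mul_mem hb (hst a ha)) (A.mul_mem ha (hst b hb)),
    b * b, A.mul_mem hb hb, by rw [map_mul, hvb, one_mul], ?_⟩
  rw [Derivation.leibniz_div]
  simp only [smul_eq_mul]
  field_simp

/-- The localisation of an integrally closed ring is closed under roots. -/
theorem root_locV (hcl : ∀ x : K, IsIntegral A x → x ∈ A) {q : ℕ} (hq : 0 < q) {b : K}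
    (hb : b ^ q ∈ locV V A) : b ∈ locV V A := by
  obtain ⟨a, ha, s, hs, hvs, hab⟩ := hb
  have hs0 : s ≠ 0 := ne_zero_of_val_eq_one hvs
  have h1 : (s * b) ^ q ∈ A := by
    obtain ⟨r, rfl⟩ : ∃ r, q = r + 1 := ⟨q - 1, by omega⟩
    have h2 : (s * b) ^ (r + 1) = s ^ r * a := by
      rw [mul_pow, hab, pow_succ]
      field_simp
    rw [h2]
    exact A.mul_mem (A.pow_mem hs r) ha
  have h2 : s * b ∈ A := by
    refine hcl _ ⟨Polynomial.X ^ q - Polynomial.C ⟨_, h1⟩, Polynomial.monic_X_pow_sub_C _ hq.ne', ?_⟩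
    rw [Polynomial.eval₂_sub, Polynomial.eval₂_pow, Polynomial.eval₂_X, Polynomial.eval₂_C]
    exact sub_self _
  refine ⟨s * b, h2, s, hs, hvs, ?_⟩
  field_simp

/-- **The maximal ideal at an etale point.** -/
theorem max_gen {p : ℕ} [hp : Fact p.Prime] [CharP K p] [PerfectField k]
    (hK : (⊤ : IntermediateField k K).FG) (htr : Algebra.trdeg k K = m) (hD : DB D z)
    (hV : ZDim k V) (hfg : A.FG) (hA : ∀ a ∈ A, a ∈ V) (hst : ∀ i, ∀ a ∈ A, D i a ∈ A)
    (hcl : ∀ x : K, IsIntegral A x → x ∈ A) {l : Fin m → K} (hl : ∀ i, l i ∈ locV V A)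
    (hl1 : ∀ i, V.valuation (l i) < 1) (hdet : V.valuation (jm D l).det = 1) {x : K}
    (hx : x ∈ locV V A) (hx1 : V.valuation x < 1) :
    ∃ b : Fin m → K, (∀ i, b i ∈ locV V A) ∧ x = ∑ i, l i * b i := by
  classical
  have hR : ∀ a ∈ locV V A, a ∈ V := locV_mem hA
  have hi : ∀ f ∈ locV V A, V.valuation f = 1 → f⁻¹ ∈ locV V A := fun f hf h1 => locV_inv hf h1
  have hloc := isLocalRing_of_val hR hi
  have hnoe := isNoetherian_locV hV hfg hA
  have hmem : ∀ y : locV V A, y ∈ IsLocalRing.maximalIdeal (locV V A) ↔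
      V.valuation (y : K) < 1 := fun y => by
    rw [IsLocalRing.mem_maximalIdeal]
    exact nonunit_iff_val hR hi y
  have hdet0 : (jm D l).det ≠ 0 := ne_zero_of_val_eq_one hdet
  have hst' : ∀ i, ∀ a ∈ (locV V A).toSubring, D i a ∈ (locV V A).toSubring := fun i a ha =>
    der_locV (D i) (hst i) ha
  have hdetm : (jm D l).det ∈ (locV V A).toSubring :=
    Pool.Agent.TGh33.det_mem _ _ fun i j => hst' j _ (hl i)
  have hdetm' : ((jm D l).det)⁻¹ ∈ (locV V A).toSubring := hi _ hdetm hdet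
  -- the Frobenius basis
  have hess : Algebra.EssFiniteType k K := IntermediateField.fg_top_iff.1 hK
  have hPD : Pool.Agent.TGh43.PD p l (dualD D l) := by
    refine ⟨fun i => by rw [dualD_u D l hdet0, if_pos rfl],
      fun i j hij => by rw [dualD_u D l hdet0, if_neg hij], fun a => ?_⟩
    have h1 := Pool.Agent.TGLh28.pexp_of_dual (p := p) (k := k) (E := K) (ι := Fin m)
      (by rw [htr, Fintype.card_fin]) l (dualD D l) (fun i j => dualD_u D l hdet0 i j)
    obtain ⟨c, _, hc⟩ := h1 a (Set.mem_univ a)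
    exact ⟨c, hc⟩
  -- Nakayama
  let lO : Fin m → locV V A := fun i => ⟨l i, hl i⟩
  have hsup : IsLocalRing.maximalIdeal (locV V A) ≤ Ideal.span (Set.range lO) ⊔
      IsLocalRing.maximalIdeal (locV V A) • IsLocalRing.maximalIdeal (locV V A) := by
    intro y hy
    rw [hmem] at hy
    obtain ⟨c, hc, hyc⟩ := hPD.gen (locV V A).toSubring
      (fun i t ht => dualD_mem D _ hst' l hl hdetm' i ht) hl
      (fun b hb => root_locV hcl hp.out.pos hb) y.2
    let cO : (Fin m → Fin p) → locV V A := fun μ => ⟨c μ, hc μ⟩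
    have hne : NeZero p := ⟨hp.out.ne_zero⟩
    have hyO : y = ∑ μ, (∏ i, lO i ^ (μ i : ℕ)) * cO μ ^ p := by
      apply Subtype.ext
      rw [AddSubmonoidClass.coe_finsetSum, hyc]
      refine Finset.sum_congr rfl fun μ _ => ?_
      push_cast
      rfl
    have hsplit : y = (∑ μ ∈ Finset.univ.erase 0, (∏ i, lO i ^ (μ i : ℕ)) * cO μ ^ p) +
        cO 0 ^ p := by
      rw [hyO, ← Finset.sum_erase_add _ _ (Finset.mem_univ (0 : Fin m → Fin p))]
      congr 1
      simp
    have h1 : (∑ μ ∈ Finset.univ.erase 0, (∏ i, lO i ^ (μ i : ℕ)) * cO μ ^ p) ∈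
        Ideal.span (Set.range lO) := by
      refine Ideal.sum_mem _ fun μ hμ => ?_
      obtain ⟨i, hi⟩ := Function.ne_iff.1 (Finset.ne_of_mem_erase hμ)
      have hi' : (μ i : ℕ) ≠ 0 := fun h0 => hi (Fin.ext h0)
      refine Ideal.mul_mem_right _ _ ?_
      rw [← Finset.mul_prod_erase _ _ (Finset.mem_univ i)]
      refine Ideal.mul_mem_right _ _ ?_
      have hli : lO i ∈ Ideal.span (Set.range lO) := Ideal.subset_span ⟨i, rfl⟩
      exact Ideal.pow_mem_of_mem _ hli _ (Nat.pos_of_ne_zero hi')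
    have h1' : Ideal.span (Set.range lO) ≤ IsLocalRing.maximalIdeal (locV V A) := by
      rw [Ideal.span_le]
      rintro _ ⟨i, rfl⟩
      exact (hmem _).2 (hl1 i)
    have h2 : cO 0 ^ p ∈ IsLocalRing.maximalIdeal (locV V A) := by
      have h3 : cO 0 ^ p = y - ∑ μ ∈ Finset.univ.erase 0, (∏ i, lO i ^ (μ i : ℕ)) * cO μ ^ p := by
        conv_rhs => rw [hsplit]
        ring
      rw [h3]
      exact Ideal.sub_mem _ ((hmem y).2 hy) (h1' h1)
    have h3 : cO 0 ∈ IsLocalRing.maximalIdeal (locV V A) :=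
      (IsLocalRing.maximalIdeal.isMaximal _).isPrime.mem_of_pow_mem _ h2
    rw [hsplit]
    refine Submodule.add_mem_sup h1 ?_
    have h4 : cO 0 ^ p = cO 0 ^ (p - 2) * (cO 0 * cO 0) := by
      rw [← pow_two, ← pow_add]
      congr 1
      have := hp.out.two_le
      omega
    rw [h4]
    exact Ideal.mul_mem_left _ _ (Ideal.mul_mem_mul h3 h3)
  have hle : IsLocalRing.maximalIdeal (locV V A) ≤ Ideal.span (Set.range lO) :=
    Submodule.le_of_le_smul_of_le_jacobson_bot (IsNoetherian.noetherian _)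
      (IsLocalRing.maximalIdeal_le_jacobson ⊥) hsup
  have hxm : (⟨x, hx⟩ : locV V A) ∈ Ideal.span (Set.range lO) := hle ((hmem _).2 hx1)
  obtain ⟨b, hb⟩ := Ideal.mem_span_range_iff_exists_fun.1 hxm
  refine ⟨fun i => b i, fun i => (b i).2, ?_⟩
  have h5 := congrArg Subtype.val hb
  rw [AddSubmonoidClass.coe_finsetSum] at h5
  exact h5.symm.trans (Finset.sum_congr rfl fun i _ => mul_comm _ _)

/-- `locV V A` in terms of `A` (Zariski's main theorem). -/
theorem locV_le_ncl (hV : ZDim k V) (hfg : A.FG) (hA : ∀ a ∈ A, a ∈ V) {l : Fin m → K}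
    (hl : ∀ i, l i ∈ A) (hl1 : ∀ i, V.valuation (l i) < 1)
    (hmax : ∀ a ∈ locV V A, V.valuation a < 1 →
      ∃ b : Fin m → K, (∀ i, b i ∈ locV V A) ∧ a = ∑ i, l i * b i) :
    locV V A ≤ locV V (ncl (Algebra.adjoin k (Set.range l))) := by
  classical
  have hS : Set.range l ⊆ (A : Set K) := by
    rintro _ ⟨i, rfl⟩
    exact hl i
  have hS1 : ∀ u ∈ Set.range l, V.valuation u < 1 := by
    rintro _ ⟨i, rfl⟩
    exact hl1 i
  obtain ⟨h, hhA, hh1, hhn, hha⟩ := Pool.Agent.TGBC95.exists_zmt hV hfg hA hS hS1 0 (by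
    intro a ha
    rw [zero_add, pow_one] at ha
    have ha1 : V.valuation (a : K) < 1 := ha
    obtain ⟨b, hb, hab⟩ := hmax a (le_locV _ a.2) ha1
    choose c hc s hs hvs hbs using hb
    -- common denominator
    let σ : K := ∏ i, s i
    have hσA : σ ∈ A := A.prod_mem fun i _ => hs i
    have hσ1 : V.valuation σ = 1 := by
      change V.valuation (∏ i, s i) = 1
      rw [map_prod]
      exact Finset.prod_eq_one fun i _ => hvs i
    obtain ⟨e, he⟩ := hV.res σ (hA _ hσA)
    have he0 : e ≠ 0 := by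
      rintro rfl
      rw [map_zero, sub_zero, hσ1] at he
      exact lt_irrefl _ he
    have hsum : ∃ d : Fin m → K, (∀ i, d i ∈ A) ∧ σ * a = ∑ i, l i * d i := by
      refine ⟨fun i => (∏ j ∈ Finset.univ.erase i, s j) * c i, fun i =>
        A.mul_mem (A.prod_mem fun j _ => hs j) (hc i), ?_⟩
      rw [hab, Finset.mul_sum]
      refine Finset.sum_congr rfl fun i _ => ?_
      have h1 : σ = s i * ∏ j ∈ Finset.univ.erase i, s j :=
        (Finset.mul_prod_erase _ _ (Finset.mem_univ i)).symm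
      have h2 : s i ≠ 0 := ne_zero_of_val_eq_one (hvs i)
      rw [h1, hbs i]
      field_simp
    obtain ⟨d, hd, hsd⟩ := hsum
    let lA : Fin m → A := fun i => ⟨l i, hl i⟩
    let dA : Fin m → A := fun i => ⟨d i, hd i⟩
    have h3 : a = algebraMap k A e⁻¹ * ((∑ i, lA i * dA i) - (⟨σ, hσA⟩ - algebraMap k A e) * a) := by
      have h4 : (⟨σ, hσA⟩ : A) * a = ∑ i, lA i * dA i := by
        apply Subtype.ext
        rw [AddSubmonoidClass.coe_finsetSum]
        exact hsd
      rw [← h4, sub_mul, sub_sub_cancel, ← mul_assoc, ← map_mul, inv_mul_cancel₀ he0, map_one,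
        one_mul]
    rw [h3]
    refine Ideal.mul_mem_left _ _ (Ideal.sub_mem _ ?_ ?_)
    · refine Submodule.mem_sup_left (Ideal.sum_mem _ fun i _ => Ideal.mul_mem_right _ _ ?_)
      exact Ideal.subset_span ⟨i, rfl⟩
    · refine Submodule.mem_sup_right ?_
      rw [zero_add, pow_two]
      exact Ideal.mul_mem_mul he ha)
  refine Pool.Agent.LU2.locV_le ?_ fun f hf h1 => locV_inv hf h1
  intro a ha
  obtain ⟨e, he⟩ := hha a ha
  refine ⟨h ^ e * a, he, h ^ e, (ncl _).pow_mem hhn e, by rw [map_pow, hh1, one_pow], ?_⟩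
  have hh0 : h ≠ 0 := ne_zero_of_val_eq_one hh1
  field_simp

end Pt

end Pool.Agent.TG77
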