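import Pool.Agent.Lib.TG_h77.H1a
import Pool.Agent.Lib.TG_h77.Pt

/-!
# TANK G, row H1: etale points, `NV V P = locV V A`; the model `P^m` with affine coordinates
-/

set_option autoImplicit false

namespace Pool.Agent.TG77

open Module
open Pool.Agent.TG Pool.Agent.TG.Cnt
open Pool.Agent.LU2 (locV le_locV locV_mem locV_inv locV_mono)
open Pool.Agent.TGh33 (DB jm)

universe u

section Away

variable {k K : Type u} [Field k] [Field K] [Algebra k K] {V : ValuationSubring K}

/-- `A[1 / s]`. -/
def away (A : Subalgebra k K) (s : K) : Subalgebra k K := A ⊔ Algebra.adjoin k {s⁻¹}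

theorem le_away (A : Subalgebra k K) (s : K) : A ≤ away A s := le_sup_left

theorem inv_mem_away (A : Subalgebra k K) (s : K) : s⁻¹ ∈ away A s :=
  (le_sup_right : Algebra.adjoin k {s⁻¹} ≤ away A s) (Algebra.subset_adjoin rfl)

theorem away_fg {A : Subalgebra k K} (hfg : A.FG) (s : K) : (away A s).FG :=
  hfg.sup (Subalgebra.fg_adjoin_finset {s⁻¹} |> fun h => by simpa using h)

theorem away_le_locV {A : Subalgebra k K} {s : K} (hs : s ∈ A) (h1 : V.valuation s = 1) :
    away A s ≤ locV V A := by
  refine sup_le (le_locV _) (Algebra.adjoin_le ?_)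
  rintro _ rfl
  exact locV_inv (le_locV _ hs) h1

theorem locV_away {A : Subalgebra k K} {s : K} (hs : s ∈ A) (h1 : V.valuation s = 1) :
    locV V (away A s) = locV V A :=
  le_antisymm (Pool.Agent.LU2.locV_le (away_le_locV hs h1) fun _ hf hv => locV_inv hf hv)
    (locV_mono (le_away A s))

/-- The localisation of an integrally closed ring is integrally closed. -/
theorem ncl_locV_le {A : Subalgebra k K} (hcl : ∀ x : K, IsIntegral A x → x ∈ A) :
    ncl (locV V A) ≤ locV V A := by
  have h1 : ncl A ≤ A := fun x hx => hcl x hx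
  intro x hx
  have h2 : x ∈ locV V (ncl (locV V A)) := le_locV _ hx
  rw [locV_ncl_locV] at h2
  exact locV_mono h1 h2

end Away

section Etale

variable {k K : Type u} [Field k] [Field K] [Algebra k K] {V : ValuationSubring K}
  {A : Subalgebra k K} {m : ℕ} {D : Fin m → Derivation k K K} {z : Fin m → K}

/-- **The local ring at an etale point**: `V` is centred on `Spec A`, `l` are elements of the
local ring `locV V A` of positive value whose Jacobian is a unit; the normalisation in `K` of the
affine space with coordinates `l` has the local ring `locV V A` at the centre of `V`. -/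
theorem NV_eq_locV {p : ℕ} [hp : Fact p.Prime] [CharP K p] [PerfectField k]
    (hK : (⊤ : IntermediateField k K).FG) (htr : Algebra.trdeg k K = m) (hD : DB D z)
    (hV : ZDim k V) (hfg : A.FG) (hA : ∀ a ∈ A, a ∈ V) (hst : ∀ i, ∀ a ∈ A, D i a ∈ A)
    (hcl : ∀ x : K, IsIntegral A x → x ∈ A) {s : K} (hs : s ∈ A) (hs1 : V.valuation s = 1)
    {l : Fin m → K} (hl : ∀ i, s * l i ∈ A) (hl1 : ∀ i, V.valuation (l i) < 1)
    (hdet : V.valuation (jm D l).det = 1) {P : Submodule k K} {f : K} (hf : IsMin V P f)
    (hch : ch P f = Algebra.adjoin k (Set.range l)) : NV V P = locV V A := by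
  have hs0 : s ≠ 0 := ne_zero_of_val_eq_one hs1
  have hlA : ∀ i, l i ∈ away A s := by
    intro i
    have h1 : l i = s * l i * s⁻¹ := by field_simp
    rw [h1]
    exact (away A s).mul_mem (le_away A s (hl i)) (inv_mem_away A s)
  have hloc := locV_away hs hs1
  have hll : ∀ i, l i ∈ locV V A := fun i => away_le_locV hs hs1 (hlA i)
  have hmax : ∀ a ∈ locV V (away A s), V.valuation a < 1 →
      ∃ b : Fin m → K, (∀ i, b i ∈ locV V (away A s)) ∧ a = ∑ i, l i * b i := by
    intro a ha ha1
    rw [hloc] at ha ⊢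
    exact max_gen hK htr hD hV hfg hA hst hcl hll hl1 hdet ha ha1
  have h1 := locV_le_ncl hV (away_fg hfg s)
    (fun a ha => locV_mem hA _ (away_le_locV hs hs1 ha)) hlA hl1 hmax
  rw [hloc] at h1
  rw [NV_eq hf, chN, hch]
  refine le_antisymm ?_ h1
  refine Pool.Agent.LU2.locV_le ?_ fun g hg hg1 => locV_inv hg hg1
  refine le_trans (ncl_mono (Algebra.adjoin_le ?_)) (ncl_locV_le hcl)
  rintro _ ⟨i, rfl⟩
  exact hll i

end Etale

section Len1

variable {k F K : Type u} [Field k] [Field F] [Field K] [Algebra k F] [Algebra k K]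
  [Algebra F K] [IsScalarTower k F K]

/-- A ring whose maximal ideal is generated by elements of `F`. -/
theorem lenAt_one {V : ValuationSubring K} {P : Submodule k F} (O : Subalgebra k K)
    (hO : O ≤ NV V (upm K P)) (hfr : ∀ x : K, ∃ a ∈ O, ∃ b ∈ O, b ≠ 0 ∧ x = a / b) {m : ℕ}
    (h : Fin m → F) (hh : ∀ i, algebraMap F K (h i) ∈ O)
    (hV : ∀ i, V.valuation (algebraMap F K (h i)) < 1)
    (hmax : ∀ a ∈ O, ∃ (c : k) (b : Fin m → K), (∀ i, b i ∈ O) ∧
      a = algebraMap k K c + ∑ i, algebraMap F K (h i) * b i) : LenAt V P 1 := by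
  have hsurj : ∀ q : O ⧸ Ideal.span (Set.range fun i => (⟨algebraMap F K (h i), hh i⟩ : O)),
      ∃ c : k, algebraMap k _ c = q := by
    intro q
    obtain ⟨a, rfl⟩ := Ideal.Quotient.mk_surjective q
    obtain ⟨c, b, hb, hab⟩ := hmax a a.2
    refine ⟨c, ?_⟩
    have h1 : algebraMap k (O ⧸ Ideal.span (Set.range fun i =>
        (⟨algebraMap F K (h i), hh i⟩ : O))) c = Ideal.Quotient.mk _ (algebraMap k O c) := rfl
    rw [h1, Ideal.Quotient.eq]
    have h2 : algebraMap k O c - a = -∑ i, (⟨algebraMap F K (h i), hh i⟩ : O) * ⟨b i, hb i⟩ := by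
      apply Subtype.ext
      change algebraMap k K c - (a : K) = ((-∑ i, (⟨algebraMap F K (h i), hh i⟩ : O) *
        ⟨b i, hb i⟩ : O) : K)
      rw [NegMemClass.coe_neg, AddSubmonoidClass.coe_finsetSum, hab]
      change algebraMap k K c - (algebraMap k K c + ∑ i, algebraMap F K (h i) * b i) =
        -∑ i, algebraMap F K (h i) * b i
      ring
    rw [h2]
    exact Ideal.neg_mem_iff _ |>.2 (Ideal.sum_mem _ fun i _ =>
      Ideal.mul_mem_right _ _ (Ideal.subset_span ⟨i, rfl⟩))
  refine ⟨O, m, h, hh, hO, hfr, hV, ?_, ?_⟩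
  · refine Module.Finite.of_surjective (Algebra.linearMap k _) fun q => ?_
    obtain ⟨c, hc⟩ := hsurj q
    exact ⟨c, hc⟩
  · refine finrank_le_one 1 fun q => ?_
    obtain ⟨c, hc⟩ := hsurj q
    exact ⟨c, by rw [← hc, Algebra.algebraMap_eq_smul_one]⟩

end Len1

section Aff

variable {k F : Type u} [Field k] [Field F] [Algebra k F] {m : ℕ}

/-- The model `P^m` with affine coordinates `y`. -/
def Pm (k : Type u) {F : Type u} [Field k] [Field F] [Algebra k F] {m : ℕ} (y : Fin m → F) :
    Submodule k F := Submodule.span k (insert 1 (Set.range y))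

theorem one_mem_Pm (y : Fin m → F) : (1 : F) ∈ Pm k y :=
  Submodule.subset_span (Set.mem_insert _ _)

theorem mem_Pm (y : Fin m → F) (i : Fin m) : y i ∈ Pm k y :=
  Submodule.subset_span (Set.mem_insert_of_mem _ ⟨i, rfl⟩)

theorem Pm_fg (y : Fin m → F) : (Pm k y).FG :=
  Submodule.fg_span ((Set.finite_range y).insert 1)

theorem Pm_model (y : Fin m → F) : IsModel (Pm k y) :=
  ⟨Pm_fg y, fun h => one_ne_zero ((Submodule.mem_bot k).1 (h ▸ one_mem_Pm (k := k) y))⟩

theorem ch_Pm (y : Fin m → F) : ch (Pm k y) 1 = Algebra.adjoin k (Set.range y) := by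
  refine le_antisymm (ch_le_iff.2 fun g hg => ?_) (Algebra.adjoin_le ?_)
  · rw [div_one]
    unfold Pm at hg
    induction hg using Submodule.span_induction with
    | mem x hx =>
      rcases hx with rfl | ⟨i, rfl⟩
      · exact Subalgebra.one_mem _
      · exact Algebra.subset_adjoin ⟨i, rfl⟩
    | zero => exact Subalgebra.zero_mem _
    | add x y _ _ hx hy => exact Subalgebra.add_mem _ hx hy
    | smul t x _ hx => exact Subalgebra.smul_mem _ hx t
  · rintro _ ⟨i, rfl⟩
    have h1 := div_mem_ch (f := (1 : F)) (mem_Pm (k := k) y i)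
    rwa [div_one] at h1

theorem isMin_Pm {v : ValuationSubring F} (hv : Ov k v) {y : Fin m → F} (hy : ∀ i, y i ∈ v) :
    IsMin v (Pm k y) 1 := by
  refine ⟨one_mem_Pm y, one_ne_zero, fun g hg => ?_⟩
  rw [div_one]
  unfold Pm at hg
  induction hg using Submodule.span_induction with
  | mem x hx =>
    rcases hx with rfl | ⟨i, rfl⟩
    · exact v.one_mem
    · exact hy i
  | zero => exact v.zero_mem
  | add x y _ _ hx hy => exact v.add_mem _ _ hx hy
  | smul t x _ hx => exact hv.smul_mem t hx

/-- The value of a polynomial at a point. -/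
theorem val_aeval_sub {v : ValuationSubring F} (hv : Ov k v) {y : Fin m → F}
    (hy : ∀ i, v.valuation (y i) < 1) (q : MvPolynomial (Fin m) k) :
    v.valuation (MvPolynomial.aeval y q - algebraMap k F (MvPolynomial.constantCoeff q)) < 1 := by
  have hyv : ∀ i, y i ∈ v := fun i => (v.valuation_le_one_iff _).1 (hy i).le
  have hmem : ∀ q : MvPolynomial (Fin m) k, MvPolynomial.aeval y q ∈ v := by
    intro q
    have h1 : MvPolynomial.aeval y q ∈ Algebra.adjoin k (Set.range y) := by
      rw [Algebra.adjoin_range_eq_range_aeval]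
      exact ⟨q, rfl⟩
    exact (Algebra.adjoin_le (S := valg hv) (by rintro _ ⟨i, rfl⟩; exact hyv i)) h1
  induction q using MvPolynomial.induction_on with
  | C a =>
    rw [MvPolynomial.aeval_C, MvPolynomial.constantCoeff_C, sub_self, map_zero]
    exact zero_lt_one
  | add p q hp hq =>
    rw [map_add, map_add, map_add, add_sub_add_comm]
    exact Valuation.map_add_lt _ hp hq
  | mul_X p i _ =>
    rw [map_mul, map_mul, MvPolynomial.constantCoeff_X, mul_zero, map_zero, sub_zero,
      MvPolynomial.aeval_X, map_mul]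
    exact (mul_le_of_le_one_left' ((v.valuation_le_one_iff _).2 (hmem p))).trans_lt (hy i)

theorem val_const {v : ValuationSubring F} (hv : Ov k v) {c : k} (hc : c ≠ 0) :
    v.valuation (algebraMap k F c) = 1 :=
  val_eq_one_of_mem_inv (by rw [Ne, map_eq_zero]; exact hc) (hv _) (by rw [← map_inv₀]; exact hv _)

theorem val_aeval_eq_one {v : ValuationSubring F} (hv : Ov k v) {y : Fin m → F}
    (hy : ∀ i, v.valuation (y i) < 1) (q : MvPolynomial (Fin m) k) :
    v.valuation (MvPolynomial.aeval y q) = 1 ↔ MvPolynomial.constantCoeff q ≠ 0 := by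
  have h1 := val_aeval_sub hv hy q
  constructor
  · intro h2 h3
    rw [h3, map_zero, sub_zero, h2] at h1
    exact lt_irrefl _ h1
  · intro h2
    have h3 : MvPolynomial.aeval y q = algebraMap k F (MvPolynomial.constantCoeff q) +
        (MvPolynomial.aeval y q - algebraMap k F (MvPolynomial.constantCoeff q)) := by ring
    rw [h3, Valuation.map_add_eq_of_lt_left _ (by rwa [val_const hv h2]), val_const hv h2]

/-- The local ring of the normal model depends on the point only. -/
theorem NV_Pm_congr {v v' : ValuationSubring F} (hv : Ov k v) (hv' : Ov k v') {y : Fin m → F}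
    (hyi : ∀ b : F, IsIntegral (Algebra.adjoin k (Set.range y)) b →
      b ∈ Algebra.adjoin k (Set.range y))
    (hy : ∀ i, v.valuation (y i) < 1) (hy' : ∀ i, v'.valuation (y i) < 1) :
    NV v (Pm k y) = NV v' (Pm k y) := by
  rw [NV_eq (isMin_Pm hv fun i => (v.valuation_le_one_iff _).1 (hy i).le),
    NV_eq (isMin_Pm hv' fun i => (v'.valuation_le_one_iff _).1 (hy' i).le), chN, ch_Pm]
  have h1 : ncl (Algebra.adjoin k (Set.range y)) = Algebra.adjoin k (Set.range y) :=
    le_antisymm (fun b hb => hyi b hb) (le_ncl _)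
  rw [h1]
  refine locV_congr fun a ha => ?_
  rw [Algebra.adjoin_range_eq_range_aeval] at ha
  obtain ⟨q, rfl⟩ := ha
  change v.valuation (MvPolynomial.aeval y q) = 1 ↔ v'.valuation (MvPolynomial.aeval y q) = 1
  rw [val_aeval_eq_one hv hy, val_aeval_eq_one hv' hy']

/-- Translation of the coordinates. -/
theorem Pm_sub (y : Fin m → F) (c : Fin m → k) :
    Pm k (fun i => y i - algebraMap k F (c i)) = Pm k y := by
  unfold Pm
  apply le_antisymm
  · rw [Submodule.span_le]
    rintro _ (rfl | ⟨i, rfl⟩)
    · exact one_mem_Pm y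
    · refine Submodule.sub_mem _ (mem_Pm y i) ?_
      rw [Algebra.algebraMap_eq_smul_one]
      exact Submodule.smul_mem _ _ (one_mem_Pm y)
  · rw [Submodule.span_le]
    rintro _ (rfl | ⟨i, rfl⟩)
    · exact one_mem_Pm (k := k) fun i => y i - algebraMap k F (c i)
    · have h1 : y i = (y i - algebraMap k F (c i)) + c i • (1 : F) := by
        rw [← Algebra.algebraMap_eq_smul_one]; ring
      rw [h1]
      exact Submodule.add_mem _ (mem_Pm (k := k) (fun i => y i - algebraMap k F (c i)) i)
        (Submodule.smul_mem _ _ (one_mem_Pm (k := k) fun i => y i - algebraMap k F (c i)))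

end Aff

section Upm

variable {k F K : Type u} [Field k] [Field F] [Field K] [Algebra k F] [Algebra k K]
  [Algebra F K] [IsScalarTower k F K] {m : ℕ}

theorem upm_Pm (y : Fin m → F) : upm K (Pm k y) = Pm k fun i => algebraMap F K (y i) := by
  unfold upm Pm
  rw [Submodule.map_span]
  congr 1
  rw [Set.image_insert_eq, ← Set.range_comp]
  congr 1
  exact map_one (algebraMap F K)

end Upm

end Pool.Agent.TG77
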