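import Pool.Agent.Lib.TG_h80.HH

/-!
# TANK G, row H1: embeddings and centres

`N / F` finite Galois, `W` a valuation ring of `N`, `R ⊆ F`; embeddings `j : K → N` over `F` and
the centres of `W.comap j` on the integral closure of `R` in `K`.
-/

set_option autoImplicit false

namespace Pool.Agent.TG77

open Module
open Pool.Agent.TG

universe u

section Conj

variable {k F K N : Type u} [Field k] [Field F] [Field K] [Field N] [Algebra k F] [Algebra k K]
  [Algebra k N] [Algebra F K] [Algebra F N] [IsScalarTower k F K] [IsScalarTower k F N]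
  [FiniteDimensional F N] [IsGalois F N]

/-- Two embeddings differ by an automorphism. -/
theorem exists_aut (j j' : K →ₐ[F] N) : ∃ τ : N ≃ₐ[F] N, ∀ x, τ (j x) = j' x := by
  let _ : Algebra K N := j.toRingHom.toAlgebra
  have h1 : IsScalarTower F K N := IsScalarTower.of_algebraMap_eq fun x => (j.commutes x).symm
  let φ : N →ₐ[F] N := AlgHom.liftNormal (F := F) (K₁ := K) (K₂ := N) j' N
  have hφ : ∀ x : K, φ (algebraMap K N x) = j' x := fun x =>
    AlgHom.liftNormal_commutes (F := F) (K₁ := K) (K₂ := N) j' N x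
  exact ⟨AlgEquiv.ofBijective φ (Algebra.IsAlgebraic.algHom_bijective φ), hφ⟩

/-- The ideal of `ncl (up N R)` of the elements of positive value. -/
def cenN (W : ValuationSubring N) (R : Subalgebra k F) (hR : ∀ a ∈ up (k := k) N R, a ∈ W) :
    Ideal (ncl (up (k := k) N R)).toSubring where
  carrier := {b | W.valuation (b : N) < 1}
  add_mem' := fun {a b} ha hb => by
    change W.valuation ((a : N) + (b : N)) < 1
    exact Valuation.map_add_lt _ ha hb
  zero_mem' := by
    change W.valuation (0 : N) < 1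
    rw [map_zero]
    exact zero_lt_one
  smul_mem' := fun c a ha => by
    change W.valuation ((c : N) * (a : N)) < 1
    rw [map_mul]
    have h1 : W.valuation (c : N) ≤ 1 := (W.valuation_le_one_iff _).2 (ncl_mem hR _ c.2)
    exact (mul_le_of_le_one_left zero_le h1).trans_lt ha

theorem cenN_prime (W : ValuationSubring N) (R : Subalgebra k F)
    (hR : ∀ a ∈ up (k := k) N R, a ∈ W) : (cenN W R hR).IsPrime := by
  refine ⟨fun h => ?_, fun {a b} hab => ?_⟩
  · have h1 : (1 : (ncl (up (k := k) N R)).toSubring) ∈ cenN W R hR := by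
      rw [h]; exact Submodule.mem_top
    have h2 : W.valuation (1 : N) < 1 := h1
    rw [map_one] at h2
    exact lt_irrefl _ h2
  · have h1 : W.valuation ((a : N) * (b : N)) < 1 := hab
    rw [map_mul] at h1
    by_contra hcon
    push Not at hcon
    have h2 : ∀ c : (ncl (up (k := k) N R)).toSubring, c ∉ cenN W R hR →
        W.valuation (c : N) = 1 := fun c hc =>
      le_antisymm ((W.valuation_le_one_iff _).2 (ncl_mem hR _ c.2)) (not_lt.1 hc)
    rw [h2 a hcon.1, h2 b hcon.2, one_mul] at h1
    exact lt_irrefl _ h1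

/-- Valuation rings of `N` with the same centre downstairs are conjugate at the level of centres. -/
theorem exists_conj_cen {E : Type u} [Field E] [Algebra F E] [Algebra E N] [IsScalarTower F E N]
    [Algebra k E] [IsScalarTower k F E]
    (W W' : ValuationSubring N) (R : Subalgebra k F) (hR : ∀ a ∈ up (k := k) N R, a ∈ W)
    (hR' : ∀ a ∈ up (k := k) N R, a ∈ W')
    (h : ∀ a ∈ ncl (up (k := k) E R), W.valuation (algebraMap E N a) < 1 ↔
      W'.valuation (algebraMap E N a) < 1) :
    ∃ ρ : N ≃ₐ[F] N, (∀ x : E, ρ (algebraMap E N x) = algebraMap E N x) ∧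
      ∀ b ∈ ncl (up (k := k) N R), W.valuation b < 1 ↔ W'.valuation (ρ b) < 1 := by
  have hkEN : IsScalarTower k E N := IsScalarTower.of_algebraMap_eq fun c => by
    rw [IsScalarTower.algebraMap_apply k F N, IsScalarTower.algebraMap_apply k F E,
      ← IsScalarTower.algebraMap_apply F E N]
  have hfd : FiniteDimensional E N := FiniteDimensional.right F E N
  have hg : IsGalois E N := IsGalois.tower_top_of_isGalois F E N
  have := cenN_prime W R hR
  have := cenN_prime W' R hR'
  have hst : ∀ ρ : N ≃ₐ[E] N, ∀ b ∈ (ncl (up (k := k) N R)).toSubring,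
      ρ b ∈ (ncl (up (k := k) N R)).toSubring := fun ρ b hb =>
    ncl_up_stable (ρ.restrictScalars F) hb
  obtain ⟨ρ, hρ⟩ := exists_conj_eq (L := E) (ncl (up (k := k) N R)).toSubring hst
    (cenN W R hR) (cenN W' R hR') (by
      rintro ⟨b, hb⟩ ⟨l, hl⟩
      change algebraMap E N l = b at hl
      subst hl
      exact h l ((ncl_up_iff (L := E) (N := N) l).2 hb))
  exact ⟨ρ.restrictScalars F, fun x => ρ.commutes x, fun b hb => hρ ⟨b, hb⟩⟩

/-- Embeddings which give the same centre differ by the stabiliser. -/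
theorem exists_stab (j j' : K →ₐ[F] N) (W : ValuationSubring N) (R : Subalgebra k F)
    (hR : ∀ a ∈ up (k := k) N R, a ∈ W)
    (h : ∀ a ∈ ncl (up (k := k) K R), W.valuation (j a) < 1 ↔ W.valuation (j' a) < 1) :
    ∃ σ ∈ stab W R, ∀ x, σ (j x) = j' x := by
  obtain ⟨τ, hτ⟩ := exists_aut j j'
  let _ : Algebra K N := j.toRingHom.toAlgebra
  have h1 : IsScalarTower F K N := IsScalarTower.of_algebraMap_eq fun x => (j.commutes x).symm
  have hR' : ∀ a ∈ up (k := k) N R, a ∈ W.comap (τ : N →+* N) := by
    rintro _ ⟨a, ha, rfl⟩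
    change τ (algebraMap F N a) ∈ W
    rw [τ.commutes]
    exact hR _ ⟨a, ha, rfl⟩
  have hv : ∀ x : N, (W.comap (τ : N →+* N)).valuation x < 1 ↔ W.valuation (τ x) < 1 := by
    intro x
    let _ : Algebra N N := (τ : N →+* N).toAlgebra
    exact comap_lt_one W x
  obtain ⟨ρ, hρ, hρ'⟩ := exists_conj_cen (E := K) W (W.comap (τ : N →+* N)) R hR hR' (by
    intro a ha
    rw [hv]
    have h2 : τ (algebraMap K N a) = j' a := hτ a
    rw [h2]
    exact h a ha)
  refine ⟨τ * ρ, ?_, fun x => ?_⟩
  · rw [mem_stab]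
    intro a ha
    rw [hρ' a ha, hv]
    rfl
  · rw [AlgEquiv.mul_apply]
    have h2 : ρ (j x) = j x := hρ x
    rw [h2, hτ]

/-- Every centre of `K` over the centre of `W` comes from an embedding. -/
theorem exists_emb (j₀ : K →ₐ[F] N) (V : ValuationSubring K) (W : ValuationSubring N)
    (R : Subalgebra k F) (hR : ∀ a ∈ up (k := k) N R, a ∈ W)
    (hVW : V.comap (algebraMap F K) = W.comap (algebraMap F N)) :
    ∃ j : K →ₐ[F] N, ∀ a ∈ ncl (up (k := k) K R), V.valuation a < 1 ↔ W.valuation (j a) < 1 := by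
  let _ : Algebra K N := j₀.toRingHom.toAlgebra
  have h1 : IsScalarTower F K N := IsScalarTower.of_algebraMap_eq fun x => (j₀.commutes x).symm
  have hkKN : IsScalarTower k K N := IsScalarTower.of_algebraMap_eq fun c => by
    rw [IsScalarTower.algebraMap_apply k F N, IsScalarTower.algebraMap_apply k F K,
      ← IsScalarTower.algebraMap_apply F K N]
  obtain ⟨W', hW'⟩ := exists_comap_eq (N := N) V
  have hcomap : W'.comap (algebraMap F N) = W.comap (algebraMap F N) := by
    rw [← hVW, ← hW']
    ext x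
    change algebraMap F N x ∈ W' ↔ algebraMap K N (algebraMap F K x) ∈ W'
    rw [← IsScalarTower.algebraMap_apply]
  have hR' : ∀ a ∈ up (k := k) N R, a ∈ W' := by
    rintro _ ⟨a, ha, rfl⟩
    have h2 : a ∈ W'.comap (algebraMap F N) := by
      rw [hcomap]
      exact hR _ ⟨a, ha, rfl⟩
    exact h2
  obtain ⟨ρ, _, hρ⟩ := exists_conj_cen (E := F) W' W R hR' hR (by
    intro a _
    rw [← comap_lt_one, ← comap_lt_one, hcomap])
  refine ⟨(ρ : N →ₐ[F] N).comp j₀, fun a ha => ?_⟩
  have h3 : V.valuation a < 1 ↔ W'.valuation (algebraMap K N a) < 1 := by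
    rw [← comap_lt_one, hW']
  rw [h3]
  exact hρ _ ((ncl_up_iff (L := K) (N := N) a).1 ha)

end Conj

section Act

variable {F K N : Type u} [Field F] [Field K] [Field N] [Algebra F K] [Algebra F N]
  [FiniteDimensional F N] [IsGalois F N]

/-- The action on embeddings. -/
@[reducible] def homAct : MulAction (N ≃ₐ[F] N) (K →ₐ[F] N) where
  smul σ j := (σ : N →ₐ[F] N).comp j
  one_smul j := by ext x; rfl
  mul_smul σ τ j := by ext x; rfl

theorem stabilizer_hom (j : K →ₐ[F] N) :
    let _ := homAct (F := F) (K := K) (N := N)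
    MulAction.stabilizer (N ≃ₐ[F] N) j = j.fieldRange.fixingSubgroup := by
  let _ := homAct (F := F) (K := K) (N := N)
  ext σ
  rw [MulAction.mem_stabilizer_iff, IntermediateField.mem_fixingSubgroup_iff]
  constructor
  · rintro h _ ⟨x, rfl⟩
    exact DFunLike.congr_fun h x
  · intro h
    refine AlgHom.ext fun x => ?_
    exact h _ ⟨x, rfl⟩

/-- **The local degree at an embedding**, if `r` embeddings are fixed. -/
theorem relIndex_le_sub [FiniteDimensional F K] (D : Subgroup (N ≃ₐ[F] N)) (j : K →ₐ[F] N)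
    (S : Finset (K →ₐ[F] N)) (hS : ∀ i ∈ S, ∀ σ ∈ D, ∀ x, σ (i x) = i x) :
    j.fieldRange.fixingSubgroup.relIndex D ≤ max 1 (finrank F K - S.card) := by
  classical
  let _ := homAct (F := F) (K := K) (N := N)
  have h1 : j.fieldRange.fixingSubgroup.relIndex D = (MulAction.orbit D j).ncard := by
    rw [← stabilizer_hom j, ncard_orbit]
  rw [h1]
  by_cases hj : j ∈ S
  · refine le_trans ?_ (le_max_left _ _)
    have h2 : MulAction.orbit D j = {j} := by
      rw [Set.eq_singleton_iff_unique_mem]
      refine ⟨MulAction.mem_orbit_self j, ?_⟩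
      rintro _ ⟨σ, rfl⟩
      exact AlgHom.ext fun x => hS j hj σ σ.2 x
    rw [h2, Set.ncard_singleton]
  · refine le_trans ?_ (le_max_right _ _)
    have hfin : Finite (K →ₐ[F] N) := inferInstance
    let _ : Fintype (K →ₐ[F] N) := Fintype.ofFinite _
    have hdisj : Disjoint (MulAction.orbit D j) (S : Set (K →ₐ[F] N)) := by
      rw [Set.disjoint_left]
      rintro _ ⟨σ, rfl⟩ hi
      apply hj
      have h3 : j = σ • j := by
        have h4 := hS _ hi (σ⁻¹ : D) (σ⁻¹ : D).2
        refine AlgHom.ext fun x => ?_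
        have h5 := h4 x
        have h6 : ((σ⁻¹ : D) : N ≃ₐ[F] N) ((σ • j) x) = j x := by
          change ((σ : N ≃ₐ[F] N)⁻¹) ((σ : N ≃ₐ[F] N) (j x)) = j x
          exact AlgEquiv.symm_apply_apply _ _
        rw [← h6]
        exact h5
      rw [h3]
      exact hi
    have h2 : (MulAction.orbit D j).ncard + S.card ≤ Nat.card (K →ₐ[F] N) := by
      rw [← Set.ncard_coe_finset S, ← Set.ncard_union_eq hdisj (Set.toFinite _) (Set.toFinite _)]
      exact Set.ncard_le_card _
    have h3 : Nat.card (K →ₐ[F] N) ≤ finrank F K := card_algHom_le_finrank F K N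
    omega

end Act

end Pool.Agent.TG77
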