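import Pool.Agent.Lib.TG.LocDeg
import Pool.Agent.Lib.TG.Dim
import Pool.Agent.Lib.TG.Centre
import Pool.Agent.Lib.TG_h68.FinClos

/-!
# TANK G, row C42-4: orbits of stabilisers are bounded by lengths

`N / F` finite Galois, `V` zero-dimensional valuation ring of `N`, `P` a model (ratios generate a
field over which `N` is algebraic), `D` a group of automorphisms which preserves `NV V P`;
`O ≤ NV V P` a `k`-algebra, `h_i ∈ O` fixed by `D`, of positive value. Then
`[D : D ∩ H] ≤ dim_k O / (h) O` for every `H` which contains the pointwise stabiliser of `O`.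
-/

set_option autoImplicit false

namespace Pool.Agent.TG77

open Module
open Pool.Agent.TG Pool.Agent.TG.Cnt
open Pool.Agent.LU2 (locV le_locV locV_mem locV_inv locV_mono)

universe u

section Noeth

variable {k N : Type u} [Field k] [Field N] [Algebra k N] {V : ValuationSubring N}
  {P : Submodule k N} {f : N}

/-- The normalised chart is finitely generated. -/
theorem chN_fg [PerfectField k] (hN : (⊤ : IntermediateField k N).FG) (hP : P.FG)
    (halg : ∀ x : N, IsAlgebraic (ch P f) x) : (chN P f).FG := by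
  have h1 := Pool.Agent.TGh68.finite_integralClosure hN (ch P f) (ch_fg hP) halg
  have h2 : Algebra.FiniteType k (ch P f) := (Subalgebra.fg_iff_finiteType _).1 (ch_fg hP)
  have h3 : Algebra.FiniteType (ch P f) (integralClosure (ch P f) N) := inferInstance
  have h4 : Algebra.FiniteType k (integralClosure (ch P f) N) :=
    Algebra.FiniteType.trans h2 h3
  have h5 : (chN P f : Set N) = ((integralClosure (ch P f) N).restrictScalars k : Set N) := rfl
  have h6 : chN P f = (integralClosure (ch P f) N).restrictScalars k := SetLike.ext' h5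
  rw [h6, Subalgebra.fg_iff_finiteType]
  exact h4

theorem NV_noeth [PerfectField k] (hN : (⊤ : IntermediateField k N).FG) (hV : ZDim k V)
    (hP : P.FG) (hf : IsMin V P f) (halg : ∀ x : N, IsAlgebraic (ch P f) x) :
    IsNoetherianRing (NV V P) := by
  rw [NV_eq hf]
  refine isNoetherian_locV hV (chN_fg hN hP halg) ?_
  exact ncl_mem (ch_le hV.ov hf)

/-- Every element of `N` is a quotient of elements of `NV V P`. -/
theorem NV_frac (hf : IsMin V P f) (halg : ∀ x : N, IsAlgebraic (ch P f) x) (a : N) :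
    ∃ s ∈ NV V P, s ≠ 0 ∧ s * a ∈ NV V P := by
  obtain ⟨y, hy0, hy⟩ := (halg a).exists_integral_multiple
  rw [NV_eq hf]
  refine ⟨(y : N), ?_, ?_, ?_⟩
  · exact le_locV _ (le_ncl _ y.2)
  · intro h0
    exact hy0 (Subtype.ext h0)
  · refine le_locV _ ?_
    have h1 : (y : N) * a = y • a := rfl
    rw [h1]
    exact hy

/-- The Krull intersection of an ideal inside the centre. -/
theorem NV_krull [PerfectField k] (hN : (⊤ : IntermediateField k N).FG) (hV : ZDim k V)
    (hP : IsModel P) (hf : IsMin V P f) (halg : ∀ x : N, IsAlgebraic (ch P f) x)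
    (I : Ideal (NV V P)) (hI : ∀ a ∈ I, V.valuation (a : N) < 1) (a : NV V P)
    (ha : ∀ M : ℕ, a ∈ I ^ M) : a = 0 := by
  have h1 := NV_noeth hN hV hP.fg hf halg
  have h2 : I ≠ ⊤ := by
    intro h
    have h3 := hI 1 (by rw [h]; exact Submodule.mem_top)
    have h4 : ((1 : NV V P) : N) = 1 := rfl
    rw [h4, map_one] at h3
    exact lt_irrefl _ h3
  have h3 := Ideal.iInf_pow_eq_bot_of_isDomain I h2
  have h4 : a ∈ (⨅ i : ℕ, I ^ i : Ideal (NV V P)) := by
    rw [Submodule.mem_iInf]
    exact ha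
  rw [h3] at h4
  exact h4

end Noeth

section Orbit

variable {k F N : Type u} [Field k] [Field F] [Field N] [Algebra k F] [Algebra F N] [Algebra k N]
  [IsScalarTower k F N] {V : ValuationSubring N} {P : Submodule k N} {f : N}

/-- **Row C42-4, general form.** -/
theorem relIndex_le [PerfectField k] [Finite (N ≃ₐ[F] N)]
    (hN : (⊤ : IntermediateField k N).FG) (hV : ZDim k V)
    (hP : IsModel P) (hf : IsMin V P f) (halg : ∀ x : N, IsAlgebraic (ch P f) x)
    (D H : Subgroup (N ≃ₐ[F] N)) (hD : ∀ σ ∈ D, ∀ c ∈ NV V P, σ c ∈ NV V P)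
    (O : Subalgebra k N) (hO : O ≤ NV V P)
    (hsep : ∀ σ ∈ D, (∀ g ∈ O, σ g = g) → σ ∈ H)
    {ι : Type*} [Fintype ι] (h : ι → N) (hh : ∀ i, h i ∈ O)
    (hfix : ∀ σ ∈ D, ∀ i, σ (h i) = h i) (hpos : ∀ i, V.valuation (h i) < 1)
    [FiniteDimensional k (O ⧸ Ideal.span (Set.range fun i => (⟨h i, hh i⟩ : O)))] :
    H.relIndex D ≤ finrank k (O ⧸ Ideal.span (Set.range fun i => (⟨h i, hh i⟩ : O))) := by
  -- the pointwise stabiliser of `O`
  let H₀ : Subgroup (N ≃ₐ[F] N) :=
    { carrier := {σ | ∀ g ∈ O, σ g = g}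
      mul_mem' := fun {σ τ} hσ hτ g hg => by
        rw [AlgEquiv.mul_apply, hτ g hg, hσ g hg]
      one_mem' := fun g _ => rfl
      inv_mem' := fun {σ} hσ g hg => by
        change σ.symm g = g
        rw [AlgEquiv.symm_apply_eq]
        exact (hσ g hg).symm }
  have h1 : H₀.relIndex D ≤
      finrank k (O ⧸ Ideal.span (Set.range fun i => (⟨h i, hh i⟩ : O))) := by
    refine relIndex_le_finrank D H₀ (NV V P).toSubring hD ?_ O (fun g hg => hO hg)
      (fun σ hσ g hg => hσ g hg) (fun σ _ hσ g hg => hσ g hg) h hh hfix ?_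
    · intro a
      exact NV_frac hf halg a
    · intro a ha
      have h2 := NV_krull hN hV hP hf halg
        (Ideal.span (Set.range fun i => (⟨h i, hO (hh i)⟩ : NV V P))) (fun b hb => by
          have h3 : Ideal.span (Set.range fun i => (⟨h i, hO (hh i)⟩ : NV V P)) ≤
              cen (NV V P) (NV_le hV.ov hP) := by
            rw [Ideal.span_le]
            rintro _ ⟨i, rfl⟩
            exact hpos i
          exact h3 hb) a ha
      exact h2
  refine le_trans ?_ h1
  -- monotonicity of the relative index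
  have h2 : H₀ ⊓ D ≤ H := by
    intro σ hσ
    exact hsep σ hσ.2 hσ.1
  have h3 : H.relIndex D = (H ⊓ D).relIndex D := by
    rw [Subgroup.inf_relIndex_right]
  have h4 : H₀.relIndex D = (H₀ ⊓ D).relIndex D := by
    rw [Subgroup.inf_relIndex_right]
  rw [h3, h4]
  refine Subgroup.relIndex_le_of_le_left (le_inf h2 inf_le_right) ?_
  rw [Subgroup.relIndex]
  exact Subgroup.index_ne_zero_of_finite

/-- The orbit of an element of the field of fractions of `O`. -/
theorem card_orbit_le [PerfectField k] [Finite (N ≃ₐ[F] N)]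
    (hN : (⊤ : IntermediateField k N).FG) (hV : ZDim k V)
    (hP : IsModel P) (hf : IsMin V P f) (halg : ∀ x : N, IsAlgebraic (ch P f) x)
    (D : Subgroup (N ≃ₐ[F] N)) (hD : ∀ σ ∈ D, ∀ c ∈ NV V P, σ c ∈ NV V P)
    (O : Subalgebra k N) (hO : O ≤ NV V P) {X : Type*} [MulAction (N ≃ₐ[F] N) X] (x : X)
    (hsep : ∀ σ ∈ D, (∀ g ∈ O, σ g = g) → σ • x = x)
    {ι : Type*} [Fintype ι] (h : ι → N) (hh : ∀ i, h i ∈ O)
    (hfix : ∀ σ ∈ D, ∀ i, σ (h i) = h i) (hpos : ∀ i, V.valuation (h i) < 1)
    [FiniteDimensional k (O ⧸ Ideal.span (Set.range fun i => (⟨h i, hh i⟩ : O)))] :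
    Nat.card (MulAction.orbit D x) ≤
      finrank k (O ⧸ Ideal.span (Set.range fun i => (⟨h i, hh i⟩ : O))) := by
  have h1 := relIndex_le hN hV hP hf halg D (MulAction.stabilizer (N ≃ₐ[F] N) x) hD O hO
    (fun σ hσ hg => MulAction.mem_stabilizer_iff.2 (hsep σ hσ hg)) h hh hfix hpos
  refine le_trans (le_of_eq ?_) h1
  have h2 : MulAction.stabilizer D x = (MulAction.stabilizer (N ≃ₐ[F] N) x).subgroupOf D := by
    ext σ
    rfl
  rw [Subgroup.relIndex, ← h2, MulAction.index_stabilizer, Nat.card_coe_set_eq]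

end Orbit

end Pool.Agent.TG77
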