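import Pool.Agent.Lib.TG_h77.LDeg
import Pool.Agent.Lib.TG_h77.Fin
import Pool.Agent.Lib.TG_h45.Bpf

/-!
# TANK G, row C42-4: `LenAt` from an inclusion of ideals in a polynomial ring

`O = RV W L` for a model `L` of `M` such that `P` is base point free in `L ^ (e + 1)`;
`z_i ∈ O` generate the chart; `I ⊆ k[X_1, .., X_n]` with `(X)^T ≤ I + (X)^(T+1)` and
`I(z) ⊆ (h) O`.  Then `LenAt W P (T ^ n)`.
-/

set_option autoImplicit false

namespace Pool.Agent.TG77

open Module
open Pool.Agent.TG Pool.Agent.TG.Cnt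
open Pool.Agent.LU2 (locV le_locV locV_mem locV_inv locV_mono)

universe u

section Loc

variable {k M : Type u} [Field k] [Field M] [Algebra k M] {W : ValuationSubring M}
  {L : Submodule k M} {l : M}

theorem RV_local (hW : Ov k W) (hL : IsModel L) : IsLocalRing (RV W L) :=
  isLocalRing_of_val (RV_le hW hL) fun _ h h1 => RV_inv h h1

theorem RV_noeth (hW : ZDim k W) (hL : IsModel L) (hl : IsMin W L l) :
    IsNoetherianRing (RV W L) := by
  rw [RV_eq hl]
  exact isNoetherian_locV hW (ch_fg hL.fg) (ch_le hW.ov hl)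

theorem mem_max_iff (hW : Ov k W) (hL : IsModel L) [IsLocalRing (RV W L)] (x : RV W L) :
    x ∈ IsLocalRing.maximalIdeal (RV W L) ↔ W.valuation (x : M) < 1 := by
  rw [IsLocalRing.mem_maximalIdeal]
  exact nonunit_iff_val (RV_le hW hL) (fun _ h h1 => RV_inv h h1) x

/-- a constant of value `< 1` is zero -/
theorem const_eq_zero (hW : Ov k W) {c : k} (h : W.valuation (algebraMap k M c) < 1) : c = 0 := by
  by_contra hc
  have h1 : W.valuation (algebraMap k M c) = 1 :=
    val_eq_one_of_mem_inv (by rw [Ne, map_eq_zero]; exact hc) (hW _)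
      (by rw [← map_inv₀]; exact hW _)
  rw [h1] at h
  exact lt_irrefl _ h

variable {n : ℕ}

/-- The maximal ideal is generated by the coordinates. -/
theorem map_X_eq (hW : ZDim k W) (hL : IsModel L) (hl : IsMin W L l) [IsLocalRing (RV W L)]
    (z : Fin n → M) (hz1 : ∀ i, W.valuation (z i) < 1)
    (hgen : ch L l ≤ Algebra.adjoin k (Set.range z)) (π : MvPolynomial (Fin n) k →ₐ[k] RV W L)
    (hπ : ∀ i, (π (MvPolynomial.X i) : M) = z i) :
    (Ideal.span (Set.range (MvPolynomial.X : Fin n → MvPolynomial (Fin n) k))).map π =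
      IsLocalRing.maximalIdeal (RV W L) := by
  apply le_antisymm
  · rw [Ideal.map_le_iff_le_comap, Ideal.span_le]
    rintro _ ⟨i, rfl⟩
    change π (MvPolynomial.X i) ∈ IsLocalRing.maximalIdeal (RV W L)
    rw [mem_max_iff hW.ov hL, hπ]
    exact hz1 i
  · intro x hx
    rw [mem_max_iff hW.ov hL] at hx
    have hx' : (x : M) ∈ locV W (ch L l) := by rw [← RV_eq hl]; exact x.2
    obtain ⟨a, ha, b, hb, hvb, hab⟩ := hx'
    have hb0 : b ≠ 0 := by
      rintro rfl
      rw [map_zero] at hvb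
      exact zero_ne_one hvb
    have hva : W.valuation a < 1 := by
      rw [hab, map_div₀, hvb, div_one] at hx
      exact hx
    -- `a` is a polynomial in `z`
    obtain ⟨p, hp⟩ : ∃ p : MvPolynomial (Fin n) k, (π p : M) = a := by
      have h1 := hgen ha
      rw [Algebra.adjoin_range_eq_range_aeval] at h1
      obtain ⟨p, hp⟩ := h1
      refine ⟨p, ?_⟩
      rw [← hp]
      change (RV W L).val (π p) = MvPolynomial.aeval z p
      have h2 : ((RV W L).val.comp π) = MvPolynomial.aeval z := by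
        refine MvPolynomial.algHom_ext fun i => ?_
        rw [MvPolynomial.aeval_X]
        exact hπ i
      rw [← h2]
      rfl
    have hp0 : p - MvPolynomial.C (MvPolynomial.coeff 0 p) ∈
        Ideal.span (Set.range (MvPolynomial.X : Fin n → MvPolynomial (Fin n) k)) := by
      rw [← Set.image_univ, MvPolynomial.mem_ideal_span_X_image]
      intro m hm
      have hm0 : m ≠ 0 := by
        rintro rfl
        rw [MvPolynomial.mem_support_iff] at hm
        apply hm
        rw [MvPolynomial.coeff_sub, MvPolynomial.coeff_C, if_pos rfl, sub_self]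
      obtain ⟨i, hi⟩ := Finsupp.ne_iff.1 hm0
      exact ⟨i, Set.mem_univ _, hi⟩
    have h3 : π (p - MvPolynomial.C (MvPolynomial.coeff 0 p)) ∈
        (Ideal.span (Set.range (MvPolynomial.X : Fin n → MvPolynomial (Fin n) k))).map π :=
      Ideal.mem_map_of_mem _ hp0
    have hle : (Ideal.span (Set.range (MvPolynomial.X : Fin n → MvPolynomial (Fin n) k))).map π ≤
        IsLocalRing.maximalIdeal (RV W L) := by
      rw [Ideal.map_le_iff_le_comap, Ideal.span_le]
      rintro _ ⟨i, rfl⟩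
      change π (MvPolynomial.X i) ∈ IsLocalRing.maximalIdeal (RV W L)
      rw [mem_max_iff hW.ov hL, hπ]
      exact hz1 i
    have h4 : MvPolynomial.coeff 0 p = 0 := by
      have h5 := (mem_max_iff hW.ov hL _).1 (hle h3)
      have h6 : ((π (p - MvPolynomial.C (MvPolynomial.coeff 0 p)) : RV W L) : M) =
          a - algebraMap k M (MvPolynomial.coeff 0 p) := by
        rw [map_sub]
        have h7 : π (MvPolynomial.C (MvPolynomial.coeff 0 p)) =
            algebraMap k (RV W L) (MvPolynomial.coeff 0 p) := by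
          rw [← MvPolynomial.algebraMap_eq, π.commutes]
        rw [h7]
        change (π p : M) - algebraMap k M _ = _
        rw [hp]
      rw [h6] at h5
      refine const_eq_zero hW.ov ?_
      have h7 : algebraMap k M (MvPolynomial.coeff 0 p) =
          a - (a - algebraMap k M (MvPolynomial.coeff 0 p)) := by ring
      rw [h7]
      exact Valuation.map_sub_lt _ hva h5
    rw [h4, map_zero, sub_zero] at h3
    have h8 : x = ⟨b⁻¹, by rw [RV_eq hl]; exact locV_inv (le_locV _ hb) hvb⟩ * π p := by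
      apply Subtype.ext
      change (x : M) = b⁻¹ * (π p : M)
      rw [hp, hab, div_eq_mul_inv, mul_comm]
    rw [h8]
    exact Ideal.mul_mem_left _ _ h3

end Loc

section Len

variable {k F M : Type u} [Field k] [Field F] [Field M] [Algebra k F] [Algebra F M] [Algebra k M]
  [IsScalarTower k F M]

/-- `RV W L ≤ NV W P` if `P` is base point free in a power of `L`. -/
theorem RV_le_NV_of_bpf {W : ValuationSubring M} (hW : Ov k W) {L P : Submodule k M}
    (hL : IsModel L) (hP : IsModel P) {e : ℕ} (hb : Bpf (L ^ (e + 1)) P) :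
    RV W L ≤ NV W P := by
  obtain ⟨f, hf⟩ := exists_isMin hW hP
  have hf' : IsMin W (L ^ (e + 1)) f := hb.isMin hW hf
  rw [← RV_pow hW hL e]
  refine RV_le_NV.trans ?_
  rw [NV_eq hf', NV_eq hf, hb.chN_eq hf.mem hf.ne]

/-- **`LenAt` from an inclusion of ideals in the polynomial ring.** -/
theorem lenAt_of_pow' {W : ValuationSubring M} (hW : ZDim k W) {P : Submodule k F}
    {L : Submodule k M} (hL : IsModel L)
    (hRN : RV W L ≤ NV W (upm M P)) {l : M} (hl : IsMin W L l)
    (hfr : ∀ x : M, ∃ a ∈ RV W L, ∃ b ∈ RV W L, b ≠ 0 ∧ x = a / b)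
    {n : ℕ} (z : Fin n → M) (hz : ∀ i, z i ∈ RV W L) (hz1 : ∀ i, W.valuation (z i) < 1)
    (hgen : ch L l ≤ Algebra.adjoin k (Set.range z)) {T : ℕ}
    (I : Ideal (MvPolynomial (Fin n) k))
    (hI : (Ideal.span (Set.range (MvPolynomial.X : Fin n → MvPolynomial (Fin n) k))) ^ T ≤
      I ⊔ (Ideal.span (Set.range (MvPolynomial.X : Fin n → MvPolynomial (Fin n) k))) ^ (T + 1))
    {r : ℕ} (h : Fin r → F) (hh : ∀ i, algebraMap F M (h i) ∈ RV W L)
    (hh1 : ∀ i, W.valuation (algebraMap F M (h i)) < 1)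
    (hIJ : ∀ a ∈ I, ∃ c : Fin r → M, (∀ i, c i ∈ RV W L) ∧
      MvPolynomial.aeval z a = ∑ i, c i * algebraMap F M (h i)) : LenAt W P (T ^ n) := by
  have h1 := RV_local hW.ov hL
  have h2 := RV_noeth hW hL hl
  let π : MvPolynomial (Fin n) k →ₐ[k] RV W L :=
    MvPolynomial.aeval fun i => (⟨z i, hz i⟩ : RV W L)
  have hπ : ∀ i, (π (MvPolynomial.X i) : M) = z i := fun i => by
    change ((MvPolynomial.aeval (fun i => (⟨z i, hz i⟩ : RV W L)) (MvPolynomial.X i) : RV W L) : M)
      = z i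
    rw [MvPolynomial.aeval_X]
  have hπa : ∀ p, (π p : M) = MvPolynomial.aeval z p := by
    intro p
    have h3 : ((RV W L).val.comp π) = MvPolynomial.aeval z := by
      refine MvPolynomial.algHom_ext fun i => ?_
      rw [MvPolynomial.aeval_X]
      exact hπ i
    rw [← h3]
    rfl
  have hmap := map_X_eq hW hL hl z hz1 hgen π hπ
  have hres : ∀ a : RV W L, ∃ c : k,
      a - algebraMap k (RV W L) c ∈ IsLocalRing.maximalIdeal (RV W L) := by
    intro a
    obtain ⟨c, hc⟩ := hW.res a (RV_le hW.ov hL _ a.2)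
    exact ⟨c, (mem_max_iff hW.ov hL _).2 hc⟩
  set J : Ideal (RV W L) :=
    Ideal.span (Set.range fun i => (⟨algebraMap F M (h i), hh i⟩ : RV W L)) with hJ
  have hIJ' : I.map π ≤ J := by
    rw [Ideal.map_le_iff_le_comap]
    intro a ha
    obtain ⟨c, hc, hca⟩ := hIJ a ha
    change π a ∈ J
    have h3 : π a = ∑ i, (⟨c i, hc i⟩ : RV W L) * ⟨algebraMap F M (h i), hh i⟩ := by
      apply Subtype.ext
      rw [hπa, hca, AddSubmonoidClass.coe_finsetSum]
      rfl
    rw [h3]
    exact Ideal.sum_mem _ fun i _ => Ideal.mul_mem_left _ _ (Ideal.subset_span ⟨i, rfl⟩)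
  obtain ⟨hf1, hf2⟩ := finite_quot_pow (k := k) (n := n) T
  obtain ⟨hg1, hg2⟩ := finrank_le_of_pow π _ hmap hres I J hIJ' T hI
  exact ⟨RV W L, r, h, hh, hRN, hfr, hh1, hg1, hg2.trans hf2⟩

/-- The form with a base point free model. -/
theorem lenAt_of_pow {W : ValuationSubring M} (hW : ZDim k W) {P : Submodule k F}
    (hP : IsModel P) {L : Submodule k M} (hL : IsModel L) {e : ℕ}
    (hb : Bpf (L ^ (e + 1)) (upm M P)) {l : M} (hl : IsMin W L l)
    (hfr : ∀ x : M, ∃ a ∈ RV W L, ∃ b ∈ RV W L, b ≠ 0 ∧ x = a / b)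
    {n : ℕ} (z : Fin n → M) (hz : ∀ i, z i ∈ RV W L) (hz1 : ∀ i, W.valuation (z i) < 1)
    (hgen : ch L l ≤ Algebra.adjoin k (Set.range z)) {T : ℕ}
    (I : Ideal (MvPolynomial (Fin n) k))
    (hI : (Ideal.span (Set.range (MvPolynomial.X : Fin n → MvPolynomial (Fin n) k))) ^ T ≤
      I ⊔ (Ideal.span (Set.range (MvPolynomial.X : Fin n → MvPolynomial (Fin n) k))) ^ (T + 1))
    {r : ℕ} (h : Fin r → F) (hh : ∀ i, algebraMap F M (h i) ∈ RV W L)
    (hh1 : ∀ i, W.valuation (algebraMap F M (h i)) < 1)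
    (hIJ : ∀ a ∈ I, ∃ c : Fin r → M, (∀ i, c i ∈ RV W L) ∧
      MvPolynomial.aeval z a = ∑ i, c i * algebraMap F M (h i)) : LenAt W P (T ^ n) :=
  lenAt_of_pow' hW hL (RV_le_NV_of_bpf hW.ov hL hP.upm hb) hl hfr z hz hz1 hgen I hI h hh hh1 hIJ

end Len

end Pool.Agent.TG77
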